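import Mathlib

/-!
# An Axer type theorem
-/

set_option autoImplicit false

open Filter Topology Finset

namespace Pool.Agent.Lib.MP_aae597_nt.Axer

/-- partial sums -/
noncomputable def M (f : ℕ → ℂ) (N : ℕ) : ℂ := ∑ n ∈ Finset.Ioc 0 N, f n

lemma sum_div_eq (f : ℕ → ℂ) (y z : ℕ) (hy : 1 ≤ y) (hyz : y ≤ z) :
    ∑ n ∈ Finset.Ioc y z, f n / n = M f z / z - M f y / y +
      ∑ n ∈ Finset.Ico y z, M f n * (1 / (n : ℂ) - 1 / ((n : ℂ) + 1)) := by
  induction z, hyz using Nat.le_induction with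
  | base => simp
  | succ z hz ih =>
    rw [Finset.sum_Ioc_succ_top hz, Finset.sum_Ico_succ_top hz, ih]
    have h1 : M f (z + 1) = M f z + f (z + 1) := by
      unfold M
      rw [Finset.sum_Ioc_succ_top (Nat.zero_le z)]
    rw [h1]
    have hz0 : (z : ℂ) ≠ 0 := by
      have : 1 ≤ z := le_trans hy hz
      exact_mod_cast (by omega : z ≠ 0)
    have hz1 : (z : ℂ) + 1 ≠ 0 := by exact_mod_cast Nat.succ_ne_zero z
    push_cast
    field_simp
    ring

lemma local_bound (f : ℕ → ℂ) (ε : ℝ) (hε : 0 ≤ ε) (n₀ : ℕ)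
    (hM : ∀ n, n₀ ≤ n → ‖M f n‖ ≤ ε * n) (y z : ℕ) (hy : 1 ≤ y) (hy0 : n₀ ≤ y) (hyz : y ≤ z) :
    ‖∑ n ∈ Finset.Ioc y z, f n / n‖ ≤ ε * (2 + ((z : ℝ) - y) / y) := by
  rw [sum_div_eq f y z hy hyz]
  have hyR : (0 : ℝ) < y := by exact_mod_cast hy
  have hzR : (0 : ℝ) < z := by exact_mod_cast le_trans hy hyz
  have h1 : ‖M f z / z‖ ≤ ε := by
    rw [norm_div, Complex.norm_natCast, div_le_iff₀ hzR]
    exact hM z (le_trans hy0 hyz)
  have h2 : ‖M f y / y‖ ≤ ε := by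
    rw [norm_div, Complex.norm_natCast, div_le_iff₀ hyR]
    exact hM y hy0
  have h3 : ‖∑ n ∈ Finset.Ico y z, M f n * (1 / (n : ℂ) - 1 / ((n : ℂ) + 1))‖ ≤
      ∑ n ∈ Finset.Ico y z, ε / y := by
    refine (norm_sum_le _ _).trans (Finset.sum_le_sum fun n hn => ?_)
    have hn' := Finset.mem_Ico.1 hn
    have hnR : (0 : ℝ) < n := by exact_mod_cast (by omega : 0 < n)
    have hyn : (y : ℝ) ≤ n := by exact_mod_cast hn'.1
    have e : (1 / (n : ℂ) - 1 / ((n : ℂ) + 1)) = ((1 / (n * (n + 1)) : ℝ) : ℂ) := by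
      have h0 : (n : ℂ) ≠ 0 := by exact_mod_cast (by omega : n ≠ 0)
      have h1 : (n : ℂ) + 1 ≠ 0 := by exact_mod_cast Nat.succ_ne_zero n
      push_cast
      field_simp
      ring
    rw [norm_mul, e, Complex.norm_real, Real.norm_of_nonneg (by positivity)]
    calc ‖M f n‖ * (1 / ((n : ℝ) * (n + 1))) ≤ (ε * n) * (1 / ((n : ℝ) * (n + 1))) :=
          mul_le_mul_of_nonneg_right (hM n (by omega)) (by positivity)
      _ = ε / (n + 1) := by field_simp
      _ ≤ ε / y := div_le_div_of_nonneg_left hε hyR (by linarith)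
  rw [Finset.sum_const, Nat.card_Ico, nsmul_eq_mul, Nat.cast_sub hyz] at h3
  calc ‖M f z / z - M f y / y + ∑ n ∈ Finset.Ico y z, M f n * (1 / (n : ℂ) - 1 / ((n : ℂ) + 1))‖
      ≤ ‖M f z / z - M f y / y‖ + ‖∑ n ∈ Finset.Ico y z, M f n * (1 / (n : ℂ) - 1 / ((n : ℂ) + 1))‖ :=
        norm_add_le _ _
    _ ≤ (ε + ε) + ((z : ℝ) - y) * (ε / y) := by
        refine add_le_add ((norm_sub_le _ _).trans (add_le_add h1 h2)) h3
    _ = ε * (2 + ((z : ℝ) - y) / y) := by ring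

lemma eventually_le (f : ℕ → ℂ) (h : Tendsto (fun N : ℕ => M f N / N) atTop (𝓝 0)) (ε : ℝ)
    (hε : 0 < ε) : ∃ n₀ : ℕ, ∀ n, n₀ ≤ n → ‖M f n‖ ≤ ε * n := by
  rw [tendsto_zero_iff_norm_tendsto_zero] at h
  obtain ⟨n₀, hn₀⟩ := eventually_atTop.1 (h.eventually (ge_mem_nhds hε))
  refine ⟨n₀, fun n hn => ?_⟩
  have h1 := hn₀ n hn
  rcases Nat.eq_zero_or_pos n with rfl | hn0
  · simp [M]
  · have hnR : (0 : ℝ) < n := by exact_mod_cast hn0
    rw [norm_div, Complex.norm_natCast, div_le_iff₀ hnR] at h1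
    exact h1

lemma tendsto_natDiv (j : ℕ) (hj : 1 ≤ j) : Tendsto (fun N : ℕ => N / j) atTop atTop :=
  Nat.tendsto_div_const_atTop (by omega)

/-- the block sums of `f n / n` tend to zero -/
lemma block_tendsto (f : ℕ → ℂ) (h : Tendsto (fun N : ℕ => M f N / N) atTop (𝓝 0)) (j : ℕ)
    (hj : 1 ≤ j) :
    Tendsto (fun N : ℕ => ∑ n ∈ Finset.Ioc (N / (j + 1)) (N / j), f n / n) atTop (𝓝 0) := by
  rw [Metric.tendsto_atTop]
  intro ε hε
  obtain ⟨n₀, hn₀⟩ := eventually_le f h (ε / 8) (by positivity)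
  obtain ⟨N₁, hN₁⟩ := eventually_atTop.1
    ((tendsto_natDiv (j + 1) (by omega)).eventually_ge_atTop (max n₀ 1))
  refine ⟨N₁, fun N hN => ?_⟩
  have h1 := hN₁ N hN
  have hy : 1 ≤ N / (j + 1) := le_trans (le_max_right _ _) h1
  have hyz : N / (j + 1) ≤ N / j := Nat.div_le_div_left (by omega) (by omega)
  have h2 := local_bound f (ε / 8) (by positivity) n₀ hn₀ (N / (j + 1)) (N / j) hy
    (le_trans (le_max_left _ _) h1) hyz
  rw [dist_zero_right]
  refine lt_of_le_of_lt h2 ?_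
  -- `N / j ≤ 4 * (N / (j+1))`
  have h3 : N / j ≤ 4 * (N / (j + 1)) := by
    have h4 : N < (j + 1) * (N / (j + 1) + 1) := Nat.lt_mul_div_succ N (by omega)
    have h5 : N / j * j ≤ N := Nat.div_mul_le_self N j
    set y := N / (j + 1)
    set z := N / j
    have h6 : z * j < (j + 1) * (y + 1) := lt_of_le_of_lt h5 h4
    have h7 : (j + 1) * (y + 1) ≤ (2 * j) * (2 * y) :=
      Nat.mul_le_mul (by omega) (by omega)
    by_contra hcon
    push Not at hcon
    have h8 : (4 * y) * j ≤ z * j := Nat.mul_le_mul_right j hcon.le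
    nlinarith
  have hyR : (0 : ℝ) < ((N / (j + 1) : ℕ) : ℝ) := by exact_mod_cast hy
  have h3R : ((N / j : ℕ) : ℝ) ≤ 4 * ((N / (j + 1) : ℕ) : ℝ) := by exact_mod_cast h3
  have h9 : (((N / j : ℕ) : ℝ) - ((N / (j + 1) : ℕ) : ℝ)) / ((N / (j + 1) : ℕ) : ℝ) ≤ 3 := by
    rw [div_le_iff₀ hyR]
    linarith
  nlinarith

lemma M_div_tendsto (f : ℕ → ℂ) (h : Tendsto (fun N : ℕ => M f N / N) atTop (𝓝 0)) (j : ℕ)
    (hj : 1 ≤ j) : Tendsto (fun N : ℕ => M f (N / j) / N) atTop (𝓝 0) := by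
  have h1 := h.comp (tendsto_natDiv j hj)
  rw [tendsto_zero_iff_norm_tendsto_zero] at h1 ⊢
  refine squeeze_zero (fun N => norm_nonneg _) (fun N => ?_) h1
  simp only [Function.comp]
  rw [norm_div, norm_div, Complex.norm_natCast, Complex.norm_natCast]
  rcases Nat.eq_zero_or_pos (N / j) with h0 | h0
  · rw [h0]
    simp [M]
  · refine div_le_div_of_nonneg_left (norm_nonneg _) (by exact_mod_cast h0) ?_
    exact_mod_cast Nat.div_le_self N j

lemma split (g : ℕ → ℂ) (N J : ℕ) (hJ : 1 ≤ J) :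
    ∑ n ∈ Finset.Ioc 0 N, g n = ∑ n ∈ Finset.Ioc 0 (N / J), g n +
      ∑ j ∈ Finset.Ico 1 J, ∑ n ∈ Finset.Ioc (N / (j + 1)) (N / j), g n := by
  induction J, hJ using Nat.le_induction with
  | base => simp
  | succ J hJ ih =>
    rw [ih, Finset.sum_Ico_succ_top hJ,
      ← Finset.sum_Ioc_consecutive g (Nat.zero_le (N / (J + 1)))
        (Nat.div_le_div_left (by omega) (by omega) : N / (J + 1) ≤ N / J)]
    ring

lemma block_tendsto' (f : ℕ → ℂ) (h : Tendsto (fun N : ℕ => M f N / N) atTop (𝓝 0))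
    (α β : ℕ → ℂ) (j : ℕ) (hj : 1 ≤ j) :
    Tendsto (fun N : ℕ => ∑ n ∈ Finset.Ioc (N / (j + 1)) (N / j),
      (α (N / n) / n + β (N / n) / N) * f n) atTop (𝓝 0) := by
  have h1 := (block_tendsto f h j hj).const_mul (α j)
  have h2 := ((M_div_tendsto f h j hj).sub (M_div_tendsto f h (j + 1) (by omega))).const_mul (β j)
  have h3 := h1.add h2
  rw [mul_zero, sub_zero, mul_zero, add_zero] at h3
  refine h3.congr fun N => ?_
  have h4 : M f (N / j) - M f (N / (j + 1)) = ∑ n ∈ Finset.Ioc (N / (j + 1)) (N / j), f n := by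
    unfold M
    rw [← Finset.sum_Ioc_consecutive f (Nat.zero_le (N / (j + 1)))
      (Nat.div_le_div_left (by omega) (by omega) : N / (j + 1) ≤ N / j), add_sub_cancel_left]
  rw [← sub_div, h4, Finset.mul_sum, Finset.sum_div, Finset.mul_sum, ← Finset.sum_add_distrib]
  refine Finset.sum_congr rfl fun n hn => ?_
  have hn' := Finset.mem_Ioc.1 hn
  have hn0 : 0 < n := lt_of_le_of_lt (Nat.zero_le _) hn'.1
  have e : N / n = j := by
    apply le_antisymm
    · rw [← Nat.lt_succ_iff, Nat.div_lt_iff_lt_mul hn0]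
      have := (Nat.div_lt_iff_lt_mul (by omega : 0 < j + 1)).1 hn'.1
      rw [mul_comm]
      exact this
    · rw [Nat.le_div_iff_mul_le hn0, mul_comm]
      exact (Nat.le_div_iff_mul_le (by omega : 0 < j)).1 hn'.2
  rw [e]
  ring

/-- **Axer's theorem.** -/
theorem axer (f : ℕ → ℂ) (hf : ∀ n, ‖f n‖ ≤ 1)
    (h : Tendsto (fun N : ℕ => M f N / N) atTop (𝓝 0)) (α β : ℕ → ℂ) (C : ℝ) (hC : 0 ≤ C)
    (hw : ∀ N n : ℕ, 1 ≤ n → n ≤ N → ‖α (N / n) / n + β (N / n) / N‖ ≤ C / N) :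
    Tendsto (fun N : ℕ => ∑ n ∈ Finset.Ioc 0 N, (α (N / n) / n + β (N / n) / N) * f n)
      atTop (𝓝 0) := by
  rw [Metric.tendsto_atTop]
  intro ε hε
  obtain ⟨J, hJ⟩ := exists_nat_gt (2 * C / ε)
  have hJ0 : (0 : ℝ) < J := lt_of_le_of_lt (by positivity) hJ
  have hJ1 : 1 ≤ J := by exact_mod_cast hJ0
  have h1 : Tendsto (fun N : ℕ => ∑ j ∈ Finset.Ico 1 J, ∑ n ∈ Finset.Ioc (N / (j + 1)) (N / j),
      (α (N / n) / n + β (N / n) / N) * f n) atTop (𝓝 (∑ j ∈ Finset.Ico 1 J, (0 : ℂ))) :=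
    tendsto_finsetSum _ fun j hj => block_tendsto' f h α β j (Finset.mem_Ico.1 hj).1
  rw [Finset.sum_const_zero, Metric.tendsto_atTop] at h1
  obtain ⟨N₀, hN₀⟩ := h1 (ε / 2) (by positivity)
  refine ⟨N₀, fun N hN => ?_⟩
  have h2 := hN₀ N hN
  rw [dist_zero_right] at h2 ⊢
  rw [split _ N J hJ1]
  refine lt_of_le_of_lt (norm_add_le _ _) ?_
  have h3 : ‖∑ n ∈ Finset.Ioc 0 (N / J), (α (N / n) / n + β (N / n) / N) * f n‖ ≤ C / J := by
    calc ‖∑ n ∈ Finset.Ioc 0 (N / J), (α (N / n) / n + β (N / n) / N) * f n‖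
        ≤ ∑ n ∈ Finset.Ioc 0 (N / J), C / N := by
          refine (norm_sum_le _ _).trans (Finset.sum_le_sum fun n hn => ?_)
          have hn' := Finset.mem_Ioc.1 hn
          rw [norm_mul]
          calc _ ≤ C / N * 1 := mul_le_mul (hw N n hn'.1 (le_trans hn'.2 (Nat.div_le_self N J)))
                (hf n) (norm_nonneg _) (by positivity)
            _ = C / N := mul_one _
      _ = ((N / J : ℕ) : ℝ) * (C / N) := by
          rw [Finset.sum_const, Nat.card_Ioc, nsmul_eq_mul, Nat.sub_zero]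
      _ ≤ C / J := by
          rcases Nat.eq_zero_or_pos N with rfl | hN0
          · simp; positivity
          · have hNR : (0 : ℝ) < N := by exact_mod_cast hN0
            have h5 : ((N / J : ℕ) : ℝ) ≤ N / J := Nat.cast_div_le
            calc ((N / J : ℕ) : ℝ) * (C / N) ≤ (N / J) * (C / N) :=
                  mul_le_mul_of_nonneg_right h5 (by positivity)
              _ = C / J := by field_simp
  have h4 : C / J < ε / 2 := by
    rw [div_lt_iff₀ hJ0]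
    rw [div_lt_iff₀ hε] at hJ
    linarith
  linarith

end Pool.Agent.Lib.MP_aae597_nt.Axer
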