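import Mathlib

set_option autoImplicit false

namespace Pool.Agent.Lib.MP_aae597_nt

open Filter Topology Set Dynamics Uniformity
open scoped SetRel

/-- the two-sided shift on two symbols -/
def sh : (ℤ → Bool) ≃ₜ (ℤ → Bool) where
  toFun x := fun i => x (i + 1)
  invFun x := fun i => x (i - 1)
  left_inv x := by funext i; simp
  right_inv x := by funext i; simp
  continuous_toFun := by fun_prop
  continuous_invFun := by fun_prop

theorem sh_apply (x : ℤ → Bool) (i : ℤ) : sh x i = x (i + 1) := rfl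

theorem sh_iterate (x : ℤ → Bool) (n : ℕ) (i : ℤ) : (sh^[n] x) i = x (i + n) := by
  induction n generalizing x with
  | zero => simp
  | succ n ih =>
    rw [Function.iterate_succ_apply, ih, sh_apply]
    congr 1
    push_cast
    ring

/-- agreement on the window `[-k, k]` -/
def V (k : ℕ) : SetRel (ℤ → Bool) (ℤ → Bool) := {p | ∀ i : ℤ, |i| ≤ k → p.1 i = p.2 i}

theorem mem_V (k : ℕ) (x y : ℤ → Bool) : (x, y) ∈ V k ↔ ∀ i : ℤ, |i| ≤ k → x i = y i := Iff.rfl

instance (k : ℕ) : (V k).IsSymm := ⟨fun _ _ h i hi => (h i hi).symm⟩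

theorem V_comp (k : ℕ) : V k ○ V k ⊆ V k := by
  rintro ⟨x, z⟩ ⟨y, hxy, hyz⟩ i hi
  exact (hxy i hi).trans (hyz i hi)

theorem exists_V_subset (U : Set ((ℤ → Bool) × (ℤ → Bool))) (hU : U ∈ 𝓤 (ℤ → Bool)) :
    ∃ k : ℕ, V k ⊆ U := by
  rw [Pi.uniformity, mem_iInf_finite] at hU
  obtain ⟨t, ht⟩ := hU
  have h1 : ∀ i : ℤ, Filter.comap (fun a : (ℤ → Bool) × (ℤ → Bool) => (a.1 i, a.2 i)) (𝓤 Bool)
      = 𝓟 {p | p.1 i = p.2 i} := by
    intro i
    have hb : 𝓤 Bool = 𝓟 SetRel.id := rfl
    rw [hb]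
    rw [comap_principal]
    rfl
  simp only [h1] at ht
  rw [iInf_principal_finset, mem_principal] at ht
  refine ⟨t.sup Int.natAbs, fun p hp => ht ?_⟩
  simp only [mem_iInter]
  intro i hi
  apply hp i
  have : i.natAbs ≤ t.sup Int.natAbs := Finset.le_sup (f := Int.natAbs) hi
  rw [Int.abs_eq_natAbs]
  exact_mod_cast this

/-- translates of a two-sided sequence -/
def tr (a : ℤ → Bool) (n : ℤ) : ℤ → Bool := fun i => a (i + n)

/-- the two-sided orbit -/
def orb (a : ℤ → Bool) : Set (ℤ → Bool) := Set.range (tr a)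

theorem sh_tr (a : ℤ → Bool) (n : ℤ) : sh (tr a n) = tr a (n + 1) := by
  funext i
  simp only [sh_apply, tr]
  congr 1; ring

/-- the sequence with a single `true` at place `j` -/
def single (j : ℤ) : ℤ → Bool := fun i => decide (i = j)

def zero : ℤ → Bool := fun _ => false

/-- covers: if every point of `F` agrees on the window `[-k, n + k)` with some member of `s`. -/
theorem isDynCoverOf_of_window (F s : Set (ℤ → Bool)) (k n : ℕ)
    (h : ∀ x ∈ F, ∃ y ∈ s, ∀ i : ℤ, -(k:ℤ) ≤ i → i < n + k → x i = y i) :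
    IsDynCoverOf sh F (V k) n s := by
  intro x hx
  obtain ⟨y, hy, hxy⟩ := h x hx
  refine ⟨y, hy, ?_⟩
  rw [mem_dynEntourage]
  intro t ht
  rw [mem_V]
  intro i hi
  rw [sh_iterate, sh_iterate]
  have := abs_le.1 hi
  exact hxy _ (by omega) (by omega)

open Classical in
/-- if the points of `F` have at most one `true` on the window, few sets suffice -/
theorem exists_cover_sparse (F : Set (ℤ → Bool)) (k n : ℕ)
    (h : ∀ x ∈ F, ∀ i j : ℤ, -(k:ℤ) ≤ i → i < j → j < n + k → x i = true → x j = false) :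
    ∃ s : Finset (ℤ → Bool), IsDynCoverOf sh F (V k) n (s : Set (ℤ → Bool)) ∧
      s.card ≤ n + 2 * k + 1 := by
  refine ⟨insert zero ((Finset.Ico (-(k:ℤ)) (n + k)).image single), ?_, ?_⟩
  · apply isDynCoverOf_of_window
    intro x hx
    by_cases hex : ∃ i : ℤ, -(k:ℤ) ≤ i ∧ i < n + k ∧ x i = true
    · obtain ⟨i, hi1, hi2, hi3⟩ := hex
      refine ⟨single i, ?_, ?_⟩
      · simp only [Finset.coe_insert, Finset.coe_image, Set.mem_insert_iff, Set.mem_image]
        right
        exact ⟨i, by simp [hi1, hi2], rfl⟩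
      · intro j hj1 hj2
        unfold single
        rcases lt_trichotomy i j with hlt | heq | hgt
        · have := h x hx i j hi1 hlt hj2 hi3
          simp [this, hlt.ne']
        · subst heq; simp [hi3]
        · by_contra hne
          have hjt : x j = true := by
            cases hxj : x j
            · simp [hxj, hgt.ne] at hne
            · rfl
          have := h x hx j i hj1 hgt hi2 hjt
          rw [hi3] at this
          exact absurd this (by decide)
    · push Not at hex
      refine ⟨zero, by simp, ?_⟩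
      intro i hi1 hi2
      have := hex i hi1 hi2
      simpa [zero] using this
  · refine (Finset.card_insert_le _ _).trans ?_
    have h1 := Finset.card_image_le (s := Finset.Ico (-(k:ℤ)) (n + k)) (f := single)
    have h2 : (Finset.Ico (-(k:ℤ)) (n + k)).card = n + 2 * k := by
      rw [Int.card_Ico]; omega
    omega

open Classical in
/-- the backward part of the orbit has linearly many windows -/
theorem exists_cover_back (a : ℤ → Bool) (hpos : ∀ i, a i = true → 1 ≤ i) (M : ℤ) (k n : ℕ) :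
    ∃ s : Finset (ℤ → Bool), IsDynCoverOf sh {x | ∃ m : ℤ, m < M ∧ x = tr a m} (V k) n
      (s : Set (ℤ → Bool)) ∧ s.card ≤ (M.toNat + n + k) + 1 := by
  refine ⟨insert zero ((Finset.Ico (-(n:ℤ) - k) M).image (tr a)), ?_, ?_⟩
  · apply isDynCoverOf_of_window
    rintro x ⟨m, hm, rfl⟩
    by_cases hlt : m < -(n:ℤ) - k
    · refine ⟨zero, by simp, ?_⟩
      intro i hi1 hi2
      unfold tr zero
      by_contra hne
      have hne' : a (i + m) = true := by simpa using hne
      have := hpos _ hne'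
      omega
    · refine ⟨tr a m, ?_, fun _ _ _ => rfl⟩
      simp only [Finset.coe_insert, Finset.coe_image, Set.mem_insert_iff, Set.mem_image]
      right
      exact ⟨m, by simp; omega, rfl⟩
  · refine (Finset.card_insert_le _ _).trans ?_
    have h1 := Finset.card_image_le (s := Finset.Ico (-(n:ℤ) - k) M) (f := tr a)
    have h2 : (Finset.Ico (-(n:ℤ) - k) M).card ≤ M.toNat + n + k := by
      rw [Int.card_Ico]; omega
    omega

/-- linear functions are eventually below any exponential -/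
theorem eventually_linear_le_exp (C : ℕ) (c : ℝ) (hc : 0 < c) :
    ∀ᶠ n : ℕ in atTop, ((n + C : ℕ) : ℝ) ≤ Real.exp (c * n) := by
  obtain ⟨N, hN⟩ := exists_nat_ge ((2 / c ^ 2) * (1 + C))
  filter_upwards [eventually_ge_atTop (max N 1)] with n hn
  have hn1 : (1:ℝ) ≤ n := by exact_mod_cast (le_max_right N 1).trans hn
  have hnN : (2 / c ^ 2) * (1 + C) ≤ n := hN.trans (by exact_mod_cast (le_max_left N 1).trans hn)
  have hq := Real.quadratic_le_exp_of_nonneg (x := c * n) (by positivity)
  have hc2 : 0 < c ^ 2 := by positivity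
  have h1 : (1 + (C:ℝ)) ≤ c ^ 2 / 2 * n := by
    have : (2 / c ^ 2) * (1 + C) * (c ^ 2 / 2) ≤ n * (c ^ 2 / 2) :=
      mul_le_mul_of_nonneg_right hnN (by positivity)
    have h2 : (2 / c ^ 2) * (1 + (C:ℝ)) * (c ^ 2 / 2) = 1 + C := by field_simp
    linarith
  have h3 : (n:ℝ) + C ≤ (c * n) ^ 2 / 2 := by
    have : (n:ℝ) * (1 + C) ≤ n * (c ^ 2 / 2 * n) := mul_le_mul_of_nonneg_left h1 (by positivity)
    have hC : (C:ℝ) ≤ n * C := by
      have hC0 : (0:ℝ) ≤ C := Nat.cast_nonneg C
      nlinarith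
    nlinarith
  push_cast
  have : 0 ≤ c * n := by positivity
  linarith

theorem natCast_le_exp {m n : ℕ} {c : ℝ} (h : (m : ℝ) ≤ Real.exp (c * n)) :
    ((m : ℕ∞).toENNReal) ≤ EReal.exp ((c : EReal) * (n : EReal)) := by
  have h1 : ((c : EReal) * (n : EReal)) = ((c * n : ℝ) : EReal) := by
    rw [EReal.coe_mul]; rfl
  rw [h1, EReal.exp_coe]
  have h2 : ((m : ℕ∞).toENNReal) = ENNReal.ofReal (m : ℝ) := by simp
  rw [h2]
  exact ENNReal.ofReal_le_ofReal h

theorem entropy_back (a : ℤ → Bool) (hpos : ∀ i, a i = true → 1 ≤ i) (M : ℤ) (k : ℕ) (c : ℝ)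
    (hc : 0 < c) :
    coverEntropyEntourage sh {x | ∃ m : ℤ, m < M ∧ x = tr a m} (V k) ≤ (c : EReal) := by
  apply Eventually.expGrowthSup_le
  filter_upwards [eventually_linear_le_exp (M.toNat + k + 1) c hc] with n hn
  obtain ⟨s, hs, hcard⟩ := exists_cover_back a hpos M k n
  have h1 : coverMincard sh {x | ∃ m : ℤ, m < M ∧ x = tr a m} (V k) n
      ≤ ((n + (M.toNat + k + 1) : ℕ) : ℕ∞) := by
    refine hs.coverMincard_le_card.trans ?_
    exact_mod_cast (by omega : s.card ≤ n + (M.toNat + k + 1))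
  exact (ENat.toENNReal_mono h1).trans (natCast_le_exp hn)

theorem entropy_forward (F : Set (ℤ → Bool)) (hinv : MapsTo sh F F) (k n : ℕ) (hn : n ≠ 0)
    (h : ∀ x ∈ F, ∀ i j : ℤ, -(k:ℤ) ≤ i → i < j → j < n + k → x i = true → x j = false)
    (c : ℝ) (hc : ((n + 2 * k + 1 : ℕ) : ℝ) ≤ Real.exp (c * n)) :
    coverEntropyEntourage sh F (V k) ≤ (c : EReal) := by
  obtain ⟨s, hs, hcard⟩ := exists_cover_sparse F k n h
  have h1 : coverEntropyEntourage sh F (V k) ≤ coverEntropyEntourage sh F (V k ○ V k) :=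
    coverEntropyEntourage_antitone _ _ (V_comp k)
  refine h1.trans ((hs.coverEntropyEntourage_le_log_card_div hinv hn).trans ?_)
  rw [EReal.div_le_iff_le_mul (by exact_mod_cast Nat.pos_of_ne_zero hn) (EReal.natCast_ne_top n)]
  have h2 : ((s.card : ℕ∞).toENNReal) ≤ EReal.exp ((c : EReal) * (n : EReal)) := by
    apply natCast_le_exp
    refine le_trans ?_ hc
    exact_mod_cast hcard
  have h3 := ENNReal.log_monotone h2
  rw [EReal.log_exp] at h3
  rw [mul_comm]
  simpa using h3

theorem entropy_orb (a : ℤ → Bool) (hpos : ∀ i, a i = true → 1 ≤ i)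
    (hgap : ∀ L : ℕ, ∃ M : ℤ, ∀ i j, a i = true → a j = true → M ≤ i → i < j → i + L ≤ j) :
    coverEntropy sh (orb a) ≤ 0 := by
  apply iSup₂_le
  intro U hU
  obtain ⟨k, hk⟩ := exists_V_subset U hU
  refine (coverEntropyEntourage_antitone _ _ hk).trans ?_
  apply le_of_forall_gt_imp_ge_of_dense
  intro b hb
  obtain ⟨c, hc0, hcb⟩ := EReal.lt_iff_exists_real_btwn.1 hb
  have hc : 0 < c := by exact_mod_cast hc0
  refine le_trans ?_ hcb.le
  obtain ⟨n, hn⟩ := ((eventually_linear_le_exp (2 * k + 1) c hc).and (eventually_ge_atTop 1)).exists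
  obtain ⟨M, hM⟩ := hgap (n + 2 * k)
  have hsub : orb a ⊆ {x | ∃ m : ℤ, m < M + k ∧ x = tr a m} ∪
      {x | ∃ m : ℤ, M + k ≤ m ∧ x = tr a m} := by
    rintro x ⟨m, rfl⟩
    rcases lt_or_ge m (M + k) with h | h
    · exact Or.inl ⟨m, h, rfl⟩
    · exact Or.inr ⟨m, h, rfl⟩
  refine (coverEntropyEntourage_monotone _ _ hsub).trans ?_
  show coverEntropyEntourage sh ({x | ∃ m : ℤ, m < M + k ∧ x = tr a m} ∪
      {x | ∃ m : ℤ, M + k ≤ m ∧ x = tr a m}) (V k) ≤ (c : EReal)
  rw [coverEntropyEntourage_union]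
  apply max_le
  · exact entropy_back a hpos (M + k) k c hc
  · apply entropy_forward _ _ k n (by omega)
    · rintro x ⟨m, hm, rfl⟩ i j hi hij hj hx
      by_contra hne
      have hxj : tr a m j = true := by simpa using hne
      have := hM (i + m) (j + m) hx hxj (by omega) (by omega)
      push_cast at this
      omega
    · have h1 := hn.1
      rwa [show n + (2 * k + 1) = n + 2 * k + 1 by ring] at h1
    · rintro x ⟨m, hm, rfl⟩
      exact ⟨m + 1, by omega, sh_tr a m⟩

theorem closure_orb_subset (a : ℤ → Bool) (hpos : ∀ i, a i = true → 1 ≤ i)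
    (hgap : ∀ L : ℕ, ∃ M : ℤ, ∀ i j, a i = true → a j = true → M ≤ i → i < j → i + L ≤ j) :
    closure (orb a) ⊆ orb a ∪ insert zero (Set.range single) := by
  intro x hx
  by_cases h : ∃ i j : ℤ, i < j ∧ x i = true ∧ x j = true
  · left
    obtain ⟨i, j, hij, hi, hj⟩ := h
    let W : Set (ℤ → Bool) := {y | y i = true ∧ y j = true}
    have hW1 : ∀ l : ℤ, IsOpen {y : ℤ → Bool | y l = true} := by
      intro l
      have hc : Continuous (fun y : ℤ → Bool => y l) := continuous_apply l
      exact (isOpen_discrete ({true} : Set Bool)).preimage hc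
    have hWo : IsOpen W := (hW1 i).inter (hW1 j)
    obtain ⟨M, hM⟩ := hgap (j - i + 1).toNat
    have hfin : (W ∩ orb a).Finite := by
      apply ((Set.finite_Ico (1 - i) (M - i)).image (tr a)).subset
      rintro y ⟨⟨hyi, hyj⟩, n, rfl⟩
      refine ⟨n, ⟨?_, ?_⟩, rfl⟩
      · have := hpos _ hyi
        omega
      · by_contra hge
        have := hM (i + n) (j + n) hyi hyj (by omega) (by omega)
        omega
    have h1 : x ∈ closure (W ∩ orb a) := hWo.inter_closure ⟨⟨hi, hj⟩, hx⟩
    rw [hfin.isClosed.closure_eq] at h1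
    exact h1.2
  · right
    push Not at h
    by_cases hex : ∃ i, x i = true
    · right
      obtain ⟨i, hi⟩ := hex
      refine ⟨i, ?_⟩
      funext j
      unfold single
      rcases lt_trichotomy i j with hlt | heq | hgt
      · have := h i j hlt hi
        simp [hlt.ne', Bool.eq_false_iff.2 this]
      · subst heq; simp [hi]
      · have : x j ≠ true := fun hj => h j i hgt hj hi
        simp [hgt.ne, Bool.eq_false_iff.2 this]
    · left
      push Not at hex
      funext j
      simpa [zero] using hex j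

theorem closure_orb_countable (a : ℤ → Bool) (hpos : ∀ i, a i = true → 1 ≤ i)
    (hgap : ∀ L : ℕ, ∃ M : ℤ, ∀ i j, a i = true → a j = true → M ≤ i → i < j → i + L ≤ j) :
    (closure (orb a)).Countable := by
  apply Set.Countable.mono (closure_orb_subset a hpos hgap)
  exact (Set.countable_range _).union ((Set.countable_range _).insert _)

theorem sh_preimage_orb (a : ℤ → Bool) : sh ⁻¹' (orb a) = orb a := by
  ext x
  constructor
  · rintro ⟨n, hn⟩
    refine ⟨n - 1, ?_⟩
    apply sh.injective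
    rw [← hn, sh_tr]
    congr 1; ring
  · rintro ⟨n, rfl⟩
    exact ⟨n + 1, (sh_tr a n).symm⟩

theorem sh_preimage_closure (a : ℤ → Bool) : closure (orb a) = sh ⁻¹' (closure (orb a)) := by
  rw [sh.preimage_closure, sh_preimage_orb]

end Pool.Agent.Lib.MP_aae597_nt
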