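import Mathlib
import Pool.Agent.Lib.MP_aae597_nt.Shift

set_option autoImplicit false

namespace Pool.Agent.Lib.MP_aae597_nt

open Filter Topology Set Dynamics Uniformity

/-- the gaps between the places of `true` tend to infinity (to the right) -/
def Sparse (y : ℤ → Bool) : Prop :=
  ∀ L : ℕ, ∃ M : ℤ, ∀ i j, y i = true → y j = true → M ≤ i → i < j → i + L ≤ j

theorem sparse_tr {a : ℤ → Bool} (ha : Sparse a) (m : ℤ) : Sparse (tr a m) := by
  intro L
  obtain ⟨M, hM⟩ := ha L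
  refine ⟨M - m, fun i j hi hj hMi hij => ?_⟩
  have := hM (i + m) (j + m) hi hj (by omega) (by omega)
  omega

theorem sparse_zero : Sparse zero := by
  intro L
  refine ⟨0, fun i j hi _ _ _ => ?_⟩
  simp [zero] at hi

theorem sparse_single (k : ℤ) : Sparse (single k) := by
  intro L
  refine ⟨k + 1, fun i j hi _ hMi _ => ?_⟩
  simp [single] at hi
  omega

/-- a sparse sequence has density zero -/
theorem sparse_density {y : ℤ → Bool} (hy : Sparse y) :
    Tendsto (fun N : ℕ => (∑ n ∈ Finset.Icc 1 N, (if y (n : ℤ) = true then (1:ℝ) else 0)) / N)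
      atTop (𝓝 0) := by
  classical
  rw [Metric.tendsto_atTop]
  intro ε hε
  obtain ⟨L, hL⟩ := exists_nat_gt (2 / ε)
  have hL0 : 0 < (L : ℝ) := lt_trans (by positivity) hL
  have hLn : 0 < L := by exact_mod_cast hL0
  obtain ⟨M, hM⟩ := hy L
  obtain ⟨N₀, hN₀⟩ := exists_nat_gt (2 * (M.toNat + 1) / ε)
  refine ⟨N₀ + 1, fun N hN => ?_⟩
  have hN1 : (0:ℝ) < N := by
    have : 1 ≤ N := by omega
    exact_mod_cast this
  have hcount : ∑ n ∈ Finset.Icc 1 N, (if y (n : ℤ) = true then (1:ℝ) else 0)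
      ≤ (M.toNat + 1 : ℝ) + N / L := by
    rw [Finset.sum_ite, Finset.sum_const_zero, add_zero, Finset.sum_const, nsmul_eq_mul, mul_one]
    have h1 : (Finset.Icc 1 N).filter (fun n : ℕ => y (n : ℤ) = true)
        ⊆ Finset.range M.toNat ∪
          ((Finset.Icc 1 N).filter (fun n : ℕ => y (n : ℤ) = true ∧ M ≤ (n : ℤ))) := by
      intro n hn
      simp only [Finset.mem_filter, Finset.mem_Icc, Finset.mem_union, Finset.mem_range] at hn ⊢
      by_cases h : M ≤ (n : ℤ)
      · right; exact ⟨hn.1, hn.2, h⟩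
      · left; omega
    have h2 : ((Finset.Icc 1 N).filter (fun n : ℕ => y (n : ℤ) = true ∧ M ≤ (n : ℤ))).card
        ≤ N / L + 1 := by
      rw [← Finset.card_range (N / L + 1)]
      apply Finset.card_le_card_of_injOn (fun n => n / L)
      · intro n hn
        simp only [Finset.coe_filter, Finset.mem_Icc, Set.mem_setOf_eq] at hn
        simp only [Finset.coe_range, Set.mem_Iio]
        have := Nat.div_le_div_right (c := L) hn.1.2
        omega
      · intro n hn n' hn' hnn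
        simp only [Finset.coe_filter, Finset.mem_Icc, Set.mem_setOf_eq] at hn hn'
        simp only at hnn
        by_contra hne
        have key : ∀ u v : ℕ, y (u : ℤ) = true → y (v : ℤ) = true → M ≤ (u : ℤ) → u < v →
            u / L ≠ v / L := by
          intro u v hu hv hMu huv
          have := hM u v hu hv hMu (by exact_mod_cast huv)
          have h3 : u + L ≤ v := by exact_mod_cast this
          have h4 := Nat.div_le_div_right (c := L) h3
          rw [Nat.add_div_right _ hLn] at h4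
          omega
        rcases Nat.lt_or_gt_of_ne hne with h | h
        · exact key n n' hn.2.1 hn'.2.1 hn.2.2 h hnn
        · exact key n' n hn'.2.1 hn.2.1 hn'.2.2 h hnn.symm
    have h3 : (((Finset.Icc 1 N).filter (fun n : ℕ => y (n : ℤ) = true)).card : ℝ)
        ≤ (M.toNat : ℝ) + ((N / L : ℕ) + 1) := by
      have h4 := (Finset.card_le_card h1).trans (Finset.card_union_le _ _)
      rw [Finset.card_range] at h4
      exact_mod_cast h4.trans (Nat.add_le_add_left h2 _)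
    have h5 : ((N / L : ℕ) : ℝ) ≤ N / L := Nat.cast_div_le
    linarith
  have hnn : 0 ≤ ∑ n ∈ Finset.Icc 1 N, (if y (n : ℤ) = true then (1:ℝ) else 0) :=
    Finset.sum_nonneg (fun n _ => by split_ifs <;> norm_num)
  rw [Real.dist_eq, sub_zero, abs_of_nonneg (by positivity), div_lt_iff₀ hN1]
  have h6 : (M.toNat + 1 : ℝ) < ε / 2 * N := by
    have h7 : 2 * (M.toNat + 1) / ε < N := by
      refine hN₀.trans ?_
      have : (N₀ + 1 : ℝ) ≤ N := by exact_mod_cast hN
      linarith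
    rw [div_lt_iff₀ hε] at h7
    linarith
  have h8 : (N : ℝ) / L ≤ ε / 2 * N := by
    rw [div_le_iff₀ hL0]
    rw [div_lt_iff₀ hε] at hL
    nlinarith
  linarith

/-- Along every sparse orbit a continuous function converges in mean to its value at the fixed
point. -/
theorem cesaro {K : Set (ℤ → Bool)} (hKc : IsCompact K) (h0 : zero ∈ K) (T : K → K)
    (hT : ∀ (n : ℕ) (y : K), ((T^[n] y : K) : ℤ → Bool) = sh^[n] (y : ℤ → Bool))
    (F : K → ℂ) (hF : Continuous F) (y : K) (hy : Sparse y) :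
    Tendsto (fun N : ℕ => (∑ n ∈ Finset.Icc 1 N, ‖F (T^[n] y) - F ⟨zero, h0⟩‖) / N)
      atTop (𝓝 0) := by
  classical
  haveI : CompactSpace K := isCompact_iff_compactSpace.1 hKc
  obtain ⟨B, hB⟩ : ∃ B : ℝ, ∀ z : K, ‖F z - F ⟨zero, h0⟩‖ ≤ B := by
    have hc : Continuous (fun z : K => ‖F z - F ⟨zero, h0⟩‖) := by fun_prop
    obtain ⟨z, -, hz⟩ := isCompact_univ.exists_isMaxOn ⟨(⟨zero, h0⟩ : K), trivial⟩ hc.continuousOn
    exact ⟨_, fun w => hz (mem_univ w)⟩
  have hB0 : 0 ≤ B := (norm_nonneg _).trans (hB ⟨zero, h0⟩)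
  have hwin : ∀ ε > 0, ∃ k : ℕ, ∀ z : K, (∀ i : ℤ, |i| ≤ k → (z : ℤ → Bool) i = false) →
      ‖F z - F ⟨zero, h0⟩‖ < ε := by
    intro ε hε
    have h1 : {z : K | ‖F z - F ⟨zero, h0⟩‖ < ε} ∈ 𝓝 (⟨zero, h0⟩ : K) := by
      apply IsOpen.mem_nhds
      · exact isOpen_lt (by fun_prop) continuous_const
      · simpa using hε
    rw [nhds_subtype_eq_comap, mem_comap] at h1
    obtain ⟨U, hU, hUs⟩ := h1
    rw [UniformSpace.mem_nhds_iff] at hU
    obtain ⟨V', hV', hVU⟩ := hU
    obtain ⟨k, hk⟩ := exists_V_subset V' hV'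
    refine ⟨k, fun z hz => ?_⟩
    apply hUs
    apply hVU
    show (zero, (z : ℤ → Bool)) ∈ V'
    apply hk
    rw [mem_V]
    intro i hi
    rw [hz i hi]; rfl
  rw [Metric.tendsto_atTop]
  intro ε hε
  obtain ⟨k, hk⟩ := hwin (ε / 2) (by positivity)
  have hmain : ∀ n : ℕ, ‖F (T^[n] y) - F ⟨zero, h0⟩‖ ≤ ε / 2 +
      B * ∑ i ∈ Finset.Icc (-(k:ℤ)) k, (if tr (y : ℤ → Bool) i (n : ℤ) = true then (1:ℝ) else 0) := by
    intro n
    have hsn : ∀ i : ℤ, (0:ℝ) ≤ (if tr (y : ℤ → Bool) i (n : ℤ) = true then (1:ℝ) else 0) := by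
      intro i; split_ifs <;> norm_num
    by_cases h : ∀ i : ℤ, |i| ≤ k → ((T^[n] y : K) : ℤ → Bool) i = false
    · have h1 := hk _ h
      have h2 : 0 ≤ B * ∑ i ∈ Finset.Icc (-(k:ℤ)) k,
          (if tr (y : ℤ → Bool) i (n : ℤ) = true then (1:ℝ) else 0) :=
        mul_nonneg hB0 (Finset.sum_nonneg (fun i _ => hsn i))
      linarith
    · push Not at h
      obtain ⟨i, hi, hit⟩ := h
      rw [hT, sh_iterate] at hit
      have hit' : tr (y : ℤ → Bool) i (n : ℤ) = true := by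
        unfold tr
        rw [add_comm]
        simpa using hit
      have h3 : (1:ℝ) ≤ ∑ i ∈ Finset.Icc (-(k:ℤ)) k,
          (if tr (y : ℤ → Bool) i (n : ℤ) = true then (1:ℝ) else 0) := by
        have hmem : i ∈ Finset.Icc (-(k:ℤ)) k := by
          rw [Finset.mem_Icc]; exact abs_le.1 hi
        refine le_trans ?_ (Finset.single_le_sum (fun j _ => hsn j) hmem)
        simp [hit']
      have h4 := hB (T^[n] y)
      nlinarith
  have hdens : Tendsto (fun N : ℕ => B * ∑ i ∈ Finset.Icc (-(k:ℤ)) k,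
      ((∑ n ∈ Finset.Icc 1 N, (if tr (y : ℤ → Bool) i (n : ℤ) = true then (1:ℝ) else 0)) / N))
      atTop (𝓝 0) := by
    have h1 : Tendsto (fun N : ℕ => B * ∑ i ∈ Finset.Icc (-(k:ℤ)) k,
      ((∑ n ∈ Finset.Icc 1 N, (if tr (y : ℤ → Bool) i (n : ℤ) = true then (1:ℝ) else 0)) / N))
      atTop (𝓝 (B * ∑ i ∈ Finset.Icc (-(k:ℤ)) k, (0:ℝ))) := by
      apply Tendsto.const_mul
      apply tendsto_finset_sum
      intro i _
      exact sparse_density (sparse_tr hy i)
    simpa using h1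
  rw [Metric.tendsto_atTop] at hdens
  obtain ⟨N₀, hN₀⟩ := hdens (ε / 2) (by positivity)
  refine ⟨N₀ + 1, fun N hN => ?_⟩
  have hN1 : (0:ℝ) < N := by
    have : 1 ≤ N := by omega
    exact_mod_cast this
  have hd := hN₀ N (by omega)
  rw [Real.dist_eq, sub_zero] at hd
  have hd' := (abs_lt.1 hd).2
  have hsum : (∑ n ∈ Finset.Icc 1 N, ‖F (T^[n] y) - F ⟨zero, h0⟩‖) / N ≤ ε / 2 +
      B * ∑ i ∈ Finset.Icc (-(k:ℤ)) k,
      ((∑ n ∈ Finset.Icc 1 N, (if tr (y : ℤ → Bool) i (n : ℤ) = true then (1:ℝ) else 0)) / N) := by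
    have h1 : ∑ n ∈ Finset.Icc 1 N, ‖F (T^[n] y) - F ⟨zero, h0⟩‖ ≤
        ∑ n ∈ Finset.Icc 1 N, (ε / 2 + B * ∑ i ∈ Finset.Icc (-(k:ℤ)) k,
          (if tr (y : ℤ → Bool) i (n : ℤ) = true then (1:ℝ) else 0)) :=
      Finset.sum_le_sum (fun n _ => hmain n)
    rw [Finset.sum_add_distrib, Finset.sum_const, Nat.card_Icc, nsmul_eq_mul,
      ← Finset.mul_sum, Finset.sum_comm] at h1
    rw [← Finset.sum_div, ← mul_div_assoc, div_le_iff₀ hN1, add_mul, div_mul_cancel₀ _ hN1.ne']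
    have h2 : ((N + 1 - 1 : ℕ) : ℝ) = N := by simp
    rw [h2] at h1
    linarith
  rw [Real.dist_eq, sub_zero, abs_of_nonneg
    (div_nonneg (Finset.sum_nonneg (fun n _ => norm_nonneg _)) hN1.le)]
  linarith

end Pool.Agent.Lib.MP_aae597_nt
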