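import Mathlib

/-!
# The tail of the series for `L(1, χ)` (from the library of MP_bae66e_nt)
-/

set_option autoImplicit false

namespace Pool.Agent.Lib.MP_aae597_nt.LOne

open Finset Nat ArithmeticFunction Filter Topology

/-- sum over a full period -/
lemma sum_full_period (q : ℕ) [NeZero q] (f : ZMod q → ℂ) (m : ℕ) :
    ∑ k ∈ Ioc m (m + q), f (k : ZMod q) = ∑ a, f a := by
  classical
  have hinj : Set.InjOn (fun k : ℕ => (k : ZMod q)) (Ioc m (m + q) : Finset ℕ) := by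
    intro k hk k' hk' h
    simp only at h
    rw [mem_coe, mem_Ioc] at hk hk'
    have h1 := (ZMod.natCast_eq_natCast_iff k k' q).mp h
    refine Nat.ModEq.eq_of_abs_lt h1 ?_
    rw [abs_lt]
    constructor <;> omega
  have himg : (Ioc m (m + q)).image (fun k : ℕ => (k : ZMod q)) = univ := by
    apply eq_univ_of_card
    rw [Finset.card_image_of_injOn hinj, Nat.card_Ioc, ZMod.card]
    omega
  rw [← himg, sum_image hinj]

/-- partial sums of a nonprincipal character -/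
lemma char_sum_bound (q : ℕ) [NeZero q] (χ : DirichletCharacter ℂ q) (hχ : χ ≠ 1) (a b : ℕ) :
    ‖∑ n ∈ Ioc a b, χ (n : ZMod q)‖ ≤ q := by
  have hq : 0 < q := Nat.pos_of_ne_zero (NeZero.ne q)
  induction b using Nat.strong_induction_on with
  | _ b ih =>
    rcases lt_or_ge b (a + q) with h | h
    · calc ‖∑ n ∈ Ioc a b, χ (n : ZMod q)‖ ≤ ∑ n ∈ Ioc a b, ‖χ (n : ZMod q)‖ := norm_sum_le _ _
        _ ≤ ∑ n ∈ Ioc a b, (1 : ℝ) := sum_le_sum fun n _ => χ.norm_le_one _
        _ = ((b - a : ℕ) : ℝ) := by rw [sum_const, Nat.card_Ioc]; simp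
        _ ≤ q := by exact_mod_cast (by omega : b - a ≤ q)
    · have h1 := ih (b - q) (by omega)
      have h2 : ∑ n ∈ Ioc a b, χ (n : ZMod q) = ∑ n ∈ Ioc a (b - q), χ (n : ZMod q)
          + ∑ n ∈ Ioc (b - q) (b - q + q), χ (n : ZMod q) := by
        rw [show b - q + q = b by omega, sum_Ioc_consecutive _ (by omega) (by omega)]
      rw [h2, sum_full_period q (fun a => χ a), χ.sum_eq_zero_of_ne_one hχ, add_zero]
      exact h1

/-- Abel's bound -/
lemma abel_bound (f : ℕ → ℂ) (g : ℕ → ℝ) (C : ℝ) (hC : 0 ≤ C) (a : ℕ)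
    (hF : ∀ b, ‖∑ n ∈ Ioc a b, f n‖ ≤ C) (hg : ∀ n, a < n → 0 ≤ g n)
    (hanti : ∀ n, a < n → g (n + 1) ≤ g n) (b : ℕ) :
    ‖∑ n ∈ Ioc a b, f n * (g n : ℂ)‖ ≤ C * g (a + 1) := by
  rcases le_or_gt b a with h | h
  · rw [Ioc_eq_empty (by omega), sum_empty, norm_zero]
    exact mul_nonneg hC (hg _ (by omega))
  · have key : ∀ b : ℕ, a + 1 ≤ b → ‖∑ n ∈ Ioc a b, f n * (g n : ℂ)
        - (g b : ℂ) * ∑ n ∈ Ioc a b, f n‖ ≤ C * (g (a + 1) - g b) := by
      intro b hb
      induction b, hb using Nat.le_induction with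
      | base =>
        rw [Nat.Ioc_succ_singleton, sum_singleton, sum_singleton]
        rw [mul_comm, sub_self, norm_zero, sub_self, mul_zero]
      | succ b hb ih =>
        rw [sum_Ioc_succ_top (by omega), sum_Ioc_succ_top (by omega)]
        have e : ∑ n ∈ Ioc a b, f n * (g n : ℂ) + f (b + 1) * (g (b + 1) : ℂ)
            - (g (b + 1) : ℂ) * (∑ n ∈ Ioc a b, f n + f (b + 1))
            = (∑ n ∈ Ioc a b, f n * (g n : ℂ) - (g b : ℂ) * ∑ n ∈ Ioc a b, f n)
              + ((g b - g (b + 1) : ℝ) : ℂ) * ∑ n ∈ Ioc a b, f n := by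
          push_cast; ring
        rw [e]
        refine (norm_add_le _ _).trans ?_
        have h1 : ‖((g b - g (b + 1) : ℝ) : ℂ) * ∑ n ∈ Ioc a b, f n‖
            ≤ (g b - g (b + 1)) * C := by
          rw [norm_mul, Complex.norm_real, Real.norm_of_nonneg
            (by have := hanti b (by omega); linarith)]
          apply mul_le_mul_of_nonneg_left (hF b)
          have := hanti b (by omega); linarith
        have h2 : C * (g (a + 1) - g (b + 1)) = C * (g (a + 1) - g b) + (g b - g (b + 1)) * C := by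
          ring
        rw [h2]
        exact _root_.add_le_add ih h1
    have h1 := key b h
    have h2 : ‖(g b : ℂ) * ∑ n ∈ Ioc a b, f n‖ ≤ g b * C := by
      rw [norm_mul, Complex.norm_real, Real.norm_of_nonneg (hg b h)]
      exact mul_le_mul_of_nonneg_left (hF b) (hg b h)
    calc ‖∑ n ∈ Ioc a b, f n * (g n : ℂ)‖
        = ‖(∑ n ∈ Ioc a b, f n * (g n : ℂ) - (g b : ℂ) * ∑ n ∈ Ioc a b, f n)
          + (g b : ℂ) * ∑ n ∈ Ioc a b, f n‖ := by rw [sub_add_cancel]
      _ ≤ _ := norm_add_le _ _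
      _ ≤ C * (g (a + 1) - g b) + g b * C := _root_.add_le_add h1 h2
      _ = C * g (a + 1) := by ring

/-- the tail of the series for `L(1, χ)` -/
lemma LFunction_one_sub_le (q : ℕ) [NeZero q] (χ : DirichletCharacter ℂ q) (hχ : χ ≠ 1) (y : ℕ) :
    ‖χ.LFunction 1 - ∑ n ∈ Ioc 0 y, χ (n : ZMod q) * (((1 / (n : ℝ) : ℝ)) : ℂ)‖
      ≤ q * (1 / ((y : ℝ) + 1)) := by
  -- the statement for `s > 1`
  have hs : ∀ s : ℝ, 1 < s →
      ‖χ.LFunction (s : ℂ) - ∑ n ∈ Ioc 0 y, χ (n : ZMod q) * ((((n : ℝ) ^ (-s) : ℝ)) : ℂ)‖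
        ≤ q * (1 / ((y : ℝ) + 1)) := by
    intro s hs
    have hsum := (DirichletCharacter.LSeriesSummable_of_one_lt_re χ (s := (s : ℂ)) (by simpa using hs))
    have hterm : ∀ n : ℕ, n ≠ 0 → LSeries.term (fun n : ℕ => χ (n : ZMod q)) (s : ℂ) n
        = χ (n : ZMod q) * ((((n : ℝ) ^ (-s) : ℝ)) : ℂ) := by
      intro n hn0
      rw [LSeries.term_of_ne_zero hn0, div_eq_mul_inv]
      congr 1
      rw [Real.rpow_neg (by positivity), Complex.ofReal_inv,
        Complex.ofReal_cpow (by positivity)]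
      simp
    have hpart : ∀ N : ℕ, ∑ n ∈ range (N + 1), LSeries.term (fun n : ℕ => χ (n : ZMod q)) (s : ℂ) n
        = ∑ n ∈ Ioc 0 N, χ (n : ZMod q) * ((((n : ℝ) ^ (-s) : ℝ)) : ℂ) := by
      intro N
      induction N with
      | zero => simp
      | succ N ih =>
        rw [sum_range_succ, ih, sum_Ioc_succ_top (Nat.zero_le N), hterm (N + 1) (by omega)]
    have hlim : Tendsto (fun N : ℕ => ∑ n ∈ Ioc 0 N, χ (n : ZMod q) * ((((n : ℝ) ^ (-s) : ℝ)) : ℂ))
        atTop (𝓝 (χ.LFunction (s : ℂ))) := by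
      rw [DirichletCharacter.LFunction_eq_LSeries χ (by simpa using hs)]
      have h1 := hsum.hasSum.tendsto_sum_nat
      have h2 := (tendsto_add_atTop_iff_nat 1).mpr h1
      refine h2.congr ?_
      intro N
      exact hpart N
    have hbound : ∀ N : ℕ, y ≤ N → ‖∑ n ∈ Ioc 0 N, χ (n : ZMod q) * ((((n : ℝ) ^ (-s) : ℝ)) : ℂ)
        - ∑ n ∈ Ioc 0 y, χ (n : ZMod q) * ((((n : ℝ) ^ (-s) : ℝ)) : ℂ)‖
        ≤ q * (1 / ((y : ℝ) + 1)) := by
      intro N hN
      have h1 : ∑ n ∈ Ioc 0 N, χ (n : ZMod q) * ((((n : ℝ) ^ (-s) : ℝ)) : ℂ)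
          - ∑ n ∈ Ioc 0 y, χ (n : ZMod q) * ((((n : ℝ) ^ (-s) : ℝ)) : ℂ)
          = ∑ n ∈ Ioc y N, χ (n : ZMod q) * ((((n : ℝ) ^ (-s) : ℝ)) : ℂ) := by
        rw [← sum_Ioc_consecutive _ (Nat.zero_le y) hN, add_sub_cancel_left]
      rw [h1]
      have h2 := abel_bound (fun n => χ (n : ZMod q)) (fun n => (n : ℝ) ^ (-s)) q (by positivity) y
        (fun b => char_sum_bound q χ hχ y b) (fun n _ => by positivity)
        (fun n hn => by
          apply Real.rpow_le_rpow_of_nonpos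
          · exact_mod_cast (by omega : 0 < n)
          · push_cast; linarith
          · linarith) N
      refine h2.trans ?_
      apply mul_le_mul_of_nonneg_left _ (by positivity)
      push_cast
      have hy1 : (1 : ℝ) ≤ (y : ℝ) + 1 := by
        have : (0 : ℝ) ≤ y := by positivity
        linarith
      calc ((y : ℝ) + 1) ^ (-s) ≤ ((y : ℝ) + 1) ^ (-1 : ℝ) :=
            Real.rpow_le_rpow_of_exponent_le hy1 (by linarith)
        _ = 1 / ((y : ℝ) + 1) := by rw [Real.rpow_neg_one, one_div]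
    refine le_of_tendsto (hlim.sub_const _).norm ?_
    filter_upwards [eventually_ge_atTop y] with N hN using hbound N hN
  -- let `s → 1+`
  have hcont : Tendsto (fun s : ℝ => ‖χ.LFunction (s : ℂ)
      - ∑ n ∈ Ioc 0 y, χ (n : ZMod q) * ((((n : ℝ) ^ (-s) : ℝ)) : ℂ)‖) (𝓝[>] 1)
      (𝓝 ‖χ.LFunction 1 - ∑ n ∈ Ioc 0 y, χ (n : ZMod q) * (((1 / (n : ℝ) : ℝ)) : ℂ)‖) := by
    apply Tendsto.mono_left _ nhdsWithin_le_nhds
    apply Tendsto.norm
    apply Tendsto.sub
    · have h1 : Continuous χ.LFunction := (DirichletCharacter.differentiable_LFunction hχ).continuous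
      have h2 : Tendsto (fun s : ℝ => χ.LFunction (s : ℂ)) (𝓝 1) (𝓝 (χ.LFunction ((1 : ℝ) : ℂ))) :=
        (h1.comp Complex.continuous_ofReal).tendsto 1
      simpa using h2
    · apply tendsto_finsetSum
      intro n hn
      have hn0 : (n : ℝ) ≠ 0 := by
        have := (mem_Ioc.mp hn).1
        positivity
      apply Tendsto.const_mul
      apply (Complex.continuous_ofReal.tendsto _).comp
      have h1 : Continuous (fun s : ℝ => (n : ℝ) ^ (-s)) :=
        Real.continuous_const_rpow hn0 |>.comp continuous_neg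
      have h2 := h1.tendsto 1
      simpa [Real.rpow_neg_one, one_div] using h2
  refine le_of_tendsto hcont ?_
  filter_upwards [self_mem_nhdsWithin] with s hs' using hs s hs'


end Pool.Agent.Lib.MP_aae597_nt.LOne
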