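import Pool.Agent.Lib.MP_aae597_nt.MuChar
import Pool.Agent.Lib.MP_aae597_nt.LOne
import Pool.Agent.Lib.MP_aae597_nt.Axer

/-!
# Convergence of `∑ μ(n) χ(n) / n`
-/

set_option autoImplicit false

open Filter Topology Finset

namespace Pool.Agent.Lib.MP_aae597_nt.CC

open Pool.Agent.Lib.MP_aae597_nt

lemma identity (h : ℕ → ℂ) (h1 : h 1 = 1) (hm : ∀ m n : ℕ, h (m * n) = h m * h n) (N : ℕ)
    (hN : 1 ≤ N) :
    ∑ n ∈ Finset.Ioc 0 N, h n * ((ArithmeticFunction.moebius n : ℤ) : ℂ) *
      ∑ m ∈ Finset.Ioc 0 (N / n), h m = 1 := by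
  classical
  let f : ArithmeticFunction ℂ := ⟨fun n => if n = 0 then 0 else
    h n * ((ArithmeticFunction.moebius n : ℤ) : ℂ), by simp⟩
  let g : ArithmeticFunction ℂ := ⟨fun n => if n = 0 then 0 else h n, by simp⟩
  have hf : ∀ n, n ≠ 0 → f n = h n * ((ArithmeticFunction.moebius n : ℤ) : ℂ) := by
    intro n hn
    change (if n = 0 then 0 else _) = _
    rw [if_neg hn]
  have hg : ∀ n, n ≠ 0 → g n = h n := by
    intro n hn
    change (if n = 0 then 0 else _) = _
    rw [if_neg hn]
  have hfg : ∀ n, n ≠ 0 → (f * g) n = if n = 1 then 1 else 0 := by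
    intro n hn
    rw [ArithmeticFunction.mul_apply]
    have h2 : ∀ x ∈ n.divisorsAntidiagonal, f x.1 * g x.2 =
        h n * ((ArithmeticFunction.moebius x.1 : ℤ) : ℂ) := by
      intro x hx
      have h3 := Nat.mem_divisorsAntidiagonal.1 hx
      have hx1 : x.1 ≠ 0 := by
        intro h0
        rw [h0, zero_mul] at h3
        exact hn h3.1.symm
      have hx2 : x.2 ≠ 0 := by
        intro h0
        rw [h0, mul_zero] at h3
        exact hn h3.1.symm
      rw [hf _ hx1, hg _ hx2, ← h3.1, hm]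
      ring
    rw [Finset.sum_congr rfl h2, ← Finset.mul_sum]
    have h4 : ∑ x ∈ n.divisorsAntidiagonal, ((ArithmeticFunction.moebius x.1 : ℤ) : ℂ) =
        ((if n = 1 then 1 else 0 : ℤ) : ℂ) := by
      have h5 := congrArg (fun F : ArithmeticFunction ℤ => F n)
        ArithmeticFunction.moebius_mul_coe_zeta
      simp only [ArithmeticFunction.mul_apply, ArithmeticFunction.one_apply] at h5
      rw [← h5]
      push_cast
      refine Finset.sum_congr rfl fun x hx => ?_
      have h3 := Nat.mem_divisorsAntidiagonal.1 hx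
      have hx2 : x.2 ≠ 0 := by
        intro h0
        rw [h0, mul_zero] at h3
        exact hn h3.1.symm
      simp [ArithmeticFunction.natCoe_apply, ArithmeticFunction.zeta_apply, hx2]
    rw [h4]
    by_cases h6 : n = 1
    · rw [if_pos h6, if_pos h6, h6, h1]
      simp
    · rw [if_neg h6, if_neg h6]
      simp
  have h7 := ArithmeticFunction.sum_Ioc_mul_eq_sum_sum f g N
  have h8 : ∑ n ∈ Finset.Ioc 0 N, (f * g) n = 1 := by
    rw [Finset.sum_congr rfl fun n hn => hfg n (by have := (Finset.mem_Ioc.1 hn).1; omega)]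
    rw [Finset.sum_ite_eq' (Finset.Ioc 0 N) 1 fun _ => (1 : ℂ)]
    rw [if_pos (Finset.mem_Ioc.2 ⟨by omega, hN⟩)]
  rw [← h8, h7]
  refine Finset.sum_congr rfl fun n hn => ?_
  rw [hf n (by have := (Finset.mem_Ioc.1 hn).1; omega)]
  congr 1
  refine Finset.sum_congr rfl fun m hm' => ?_
  rw [hg m (by have := (Finset.mem_Ioc.1 hm').1; omega)]

/-- `∑_{n ≤ N} μ(n) χ(n) / n` -/
noncomputable def A (q : ℕ) (χ : DirichletCharacter ℂ q) (N : ℕ) : ℂ :=
  ∑ n ∈ Finset.Ioc 0 N, Mu.a q χ n / n

lemma M_eq (q : ℕ) (χ : DirichletCharacter ℂ q) (N : ℕ) :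
    Axer.M (Mu.a q χ) N = Mu.Ms q χ N := by
  unfold Axer.M Mu.Ms
  congr 1

lemma tendsto_M (q : ℕ) [NeZero q] (χ : DirichletCharacter ℂ q) :
    Tendsto (fun N : ℕ => Axer.M (Mu.a q χ) N / N) atTop (𝓝 0) := by
  refine (Mu.tendsto_Ms q χ).congr fun N => ?_
  rw [M_eq]

lemma nat_div_ge (N n : ℕ) (hn : 1 ≤ n) : (N : ℝ) ≤ n * (((N / n : ℕ) : ℝ) + 1) := by
  have h := Nat.lt_mul_div_succ N (by omega : 0 < n)
  exact_mod_cast h.le

/-- the nontrivial characters -/
theorem conv_nontriv (q : ℕ) [NeZero q] (χ : DirichletCharacter ℂ q) (hχ : χ ≠ 1) :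
    Tendsto (A q χ) atTop (𝓝 (χ.LFunction 1)⁻¹) := by
  have hl : χ.LFunction 1 ≠ 0 := DirichletCharacter.LFunction_apply_one_ne_zero hχ
  set l := χ.LFunction 1 with hldef
  let D : ℕ → ℂ := fun k => ∑ m ∈ Finset.Ioc 0 k, χ (m : ZMod q) / m
  have hD : ∀ k, ‖l - D k‖ ≤ q * (1 / ((k : ℝ) + 1)) := by
    intro k
    have h1 := LOne.LFunction_one_sub_le q χ hχ k
    refine le_of_eq_of_le ?_ h1
    congr 2
    refine Finset.sum_congr rfl fun m _ => ?_
    push_cast
    ring
  have h1 := Axer.axer (Mu.a q χ) (Mu.norm_a_le q χ) (tendsto_M q χ) (fun k => l - D k)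
    (fun _ => 0) q (Nat.cast_nonneg q) (by
      intro N n hn hnN
      have hnR : (0 : ℝ) < n := by exact_mod_cast hn
      have hNR : (0 : ℝ) < N := lt_of_lt_of_le hnR (by exact_mod_cast hnN)
      rw [zero_div, add_zero, norm_div, Complex.norm_natCast, div_le_div_iff₀ hnR hNR]
      have h2 := hD (N / n)
      have h3 := nat_div_ge N n hn
      have hk : (0 : ℝ) < ((N / n : ℕ) : ℝ) + 1 := by positivity
      rw [mul_one_div] at h2
      have h4 := (le_div_iff₀ hk).1 h2
      calc ‖l - D (N / n)‖ * N ≤ ‖l - D (N / n)‖ * (n * (((N / n : ℕ) : ℝ) + 1)) :=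
            mul_le_mul_of_nonneg_left h3 (norm_nonneg _)
        _ = (‖l - D (N / n)‖ * (((N / n : ℕ) : ℝ) + 1)) * n := by ring
        _ ≤ q * n := mul_le_mul_of_nonneg_right h4 hnR.le)
  have h2 : ∀ᶠ N : ℕ in atTop, ∑ n ∈ Finset.Ioc 0 N,
      ((fun k => l - D k) (N / n) / (n : ℂ) + (fun _ : ℕ => (0 : ℂ)) (N / n) / (N : ℂ)) *
        Mu.a q χ n = l * A q χ N - 1 := by
    filter_upwards [eventually_ge_atTop 1] with N hN
    have h3 := identity (fun n => χ (n : ZMod q) / n) (by simp) (by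
      intro m n
      push_cast
      rw [map_mul]
      by_cases hm : (m : ℂ) = 0
      · simp [hm]
      by_cases hn : (n : ℂ) = 0
      · simp [hn]
      field_simp) N hN
    unfold A
    rw [← h3, Finset.mul_sum, ← Finset.sum_sub_distrib]
    refine Finset.sum_congr rfl fun n _ => ?_
    simp only [zero_div, add_zero, Mu.a, D]
    ring
  have h3 := (h1.congr' h2).add_const 1
  rw [zero_add] at h3
  have h4 := h3.const_mul l⁻¹
  rw [mul_one] at h4
  refine h4.congr fun N => ?_
  rw [sub_add_cancel, inv_mul_cancel_left₀ hl]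

/-- the number of `m ≤ k` coprime to `q` -/
noncomputable def Phi (q k : ℕ) : ℂ := ∑ m ∈ Finset.Ioc 0 k, (1 : DirichletCharacter ℂ q) (m : ZMod q)

lemma Phi_bound (q : ℕ) [NeZero q] (k : ℕ) :
    ‖Phi q k - (((q.totient : ℝ) / q : ℝ) : ℂ) * k‖ ≤ q := by
  have hq : 0 < q := Nat.pos_of_ne_zero (NeZero.ne q)
  have hqR : (0 : ℝ) < q := by exact_mod_cast hq
  have hβ1 : (q.totient : ℝ) / q ≤ 1 := by
    rw [div_le_one hqR]
    exact_mod_cast Nat.totient_le q
  have hβ0 : 0 ≤ (q.totient : ℝ) / q := by positivity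
  induction k using Nat.strong_induction_on with
  | _ k ih =>
    rcases lt_or_ge k q with h | h
    · by_cases hk0 : k = 0
      · subst hk0
        simp [Phi]
      -- both terms are between `0` and `k`
      have h1 : ∃ c : ℕ, Phi q k = c ∧ c ≤ k := by
        refine ⟨((Finset.Ioc 0 k).filter fun m : ℕ => IsUnit (m : ZMod q)).card, ?_, ?_⟩
        · unfold Phi
          rw [Finset.card_filter]
          push_cast
          refine Finset.sum_congr rfl fun m _ => ?_
          by_cases hu : IsUnit (m : ZMod q)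
          · rw [if_pos hu, MulChar.one_apply hu]
          · rw [if_neg hu, MulChar.map_nonunit _ hu]
        · refine (Finset.card_filter_le _ _).trans ?_
          rw [Nat.card_Ioc]
          omega
      obtain ⟨c, hc, hck⟩ := h1
      rw [hc]
      have h2 : (c : ℂ) - (((q.totient : ℝ) / q : ℝ) : ℂ) * k =
          (((c : ℝ) - (q.totient : ℝ) / q * k : ℝ) : ℂ) := by
        push_cast
        ring
      rw [h2, Complex.norm_real, Real.norm_eq_abs, abs_le]
      have hckR : (c : ℝ) ≤ k := by exact_mod_cast hck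
      have hkq : (k : ℝ) ≤ q := by exact_mod_cast h.le
      have hk : (0 : ℝ) ≤ k := Nat.cast_nonneg k
      have hc0 : (0 : ℝ) ≤ c := Nat.cast_nonneg c
      constructor <;> nlinarith
    · have h1 := ih (k - q) (by omega)
      have h2 : Phi q k = Phi q (k - q) + q.totient := by
        unfold Phi
        rw [← Finset.sum_Ioc_consecutive _ (Nat.zero_le (k - q)) (by omega : k - q ≤ k)]
        congr 1
        have h3 := LOne.sum_full_period q (fun a => (1 : DirichletCharacter ℂ q) a) (k - q)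
        rw [Nat.sub_add_cancel h] at h3
        rw [h3, MulChar.sum_one_eq_card_units, ZMod.card_units_eq_totient]
      have h3 : ((k - q : ℕ) : ℂ) = (k : ℂ) - q := by
        rw [Nat.cast_sub h]
      rw [h3] at h1
      rw [h2]
      refine le_of_eq_of_le ?_ h1
      congr 1
      have hq0 : (q : ℂ) ≠ 0 := by exact_mod_cast hq.ne'
      push_cast
      field_simp
      ring

/-- the trivial character -/
theorem conv_triv (q : ℕ) [NeZero q] : Tendsto (A q 1) atTop (𝓝 0) := by
  have hq : 0 < q := Nat.pos_of_ne_zero (NeZero.ne q)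
  have hqR : (0 : ℝ) < q := by exact_mod_cast hq
  have htR : (0 : ℝ) < q.totient := by exact_mod_cast Nat.totient_pos.2 hq
  set β : ℝ := (q.totient : ℝ) / q with hβ
  have hβ0 : 0 < β := by positivity
  have hβC : (β : ℂ) ≠ 0 := by exact_mod_cast hβ0.ne'
  have h1 := Axer.axer (Mu.a q 1) (Mu.norm_a_le q 1) (tendsto_M q 1) (fun _ => 1)
    (fun k => -(Phi q k / β)) (1 + q / β) (by positivity) (by
      intro N n hn hnN
      have hnR : (0 : ℝ) < n := by exact_mod_cast hn
      have hNR : (0 : ℝ) < N := lt_of_lt_of_le hnR (by exact_mod_cast hnN)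
      have hnC : (n : ℂ) ≠ 0 := by exact_mod_cast (by omega : n ≠ 0)
      have hNC : (N : ℂ) ≠ 0 := by exact_mod_cast (by omega : N ≠ 0)
      set k := N / n with hk
      have e : (1 : ℂ) / n + -(Phi q k / β) / N =
          ((((N : ℝ) / n - k : ℝ) : ℂ) - (Phi q k - β * k) / β) / N := by
        push_cast
        field_simp
        ring
      rw [e, norm_div, Complex.norm_natCast]
      refine div_le_div_of_nonneg_right ?_ hNR.le
      refine (norm_sub_le _ _).trans (add_le_add ?_ ?_)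
      · rw [Complex.norm_real, Real.norm_eq_abs, abs_le]
        have h3 : (k : ℝ) ≤ (N : ℝ) / n := Nat.cast_div_le
        have h4 := nat_div_ge N n hn
        have h5 : (N : ℝ) / n ≤ k + 1 := by
          rw [div_le_iff₀ hnR]
          linarith
        constructor <;> linarith
      · rw [norm_div, Complex.norm_real, Real.norm_of_nonneg hβ0.le]
        refine div_le_div_of_nonneg_right ?_ hβ0.le
        exact Phi_bound q k)
  have h2 : ∀ᶠ N : ℕ in atTop, ∑ n ∈ Finset.Ioc 0 N,
      ((fun _ : ℕ => (1 : ℂ)) (N / n) / (n : ℂ) + (fun k => -(Phi q k / β)) (N / n) / (N : ℂ)) *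
        Mu.a q 1 n = A q 1 N - 1 / (β * N) := by
    filter_upwards [eventually_ge_atTop 1] with N hN
    have hNC : (N : ℂ) ≠ 0 := by exact_mod_cast (by omega : N ≠ 0)
    have h3 := identity (fun n => (1 : DirichletCharacter ℂ q) (n : ZMod q)) (by simp) (by
      intro m n
      push_cast
      rw [map_mul]) N hN
    have h4 : (1 : ℂ) / (β * N) = (∑ n ∈ Finset.Ioc 0 N, (1 : DirichletCharacter ℂ q) (n : ZMod q) *
        ((ArithmeticFunction.moebius n : ℤ) : ℂ) *
        ∑ m ∈ Finset.Ioc 0 (N / n), (1 : DirichletCharacter ℂ q) (m : ZMod q)) / (β * N) := by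
      rw [h3]
    rw [h4]
    unfold A
    rw [Finset.sum_div, ← Finset.sum_sub_distrib]
    refine Finset.sum_congr rfl fun n _ => ?_
    simp only [Mu.a, Phi]
    field_simp
    ring
  have h3 := h1.congr' h2
  have h4 : Tendsto (fun N : ℕ => (1 : ℂ) / (β * N)) atTop (𝓝 0) := by
    have h5 : Tendsto (fun N : ℕ => ((1 / (N : ℝ) : ℝ) : ℂ)) atTop (𝓝 ((0 : ℝ) : ℂ)) :=
      (Complex.continuous_ofReal.tendsto 0).comp tendsto_one_div_atTop_nhds_zero_nat
    have h6 := h5.const_mul ((β : ℂ)⁻¹)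
    rw [Complex.ofReal_zero, mul_zero] at h6
    refine h6.congr fun N => ?_
    push_cast
    rw [one_div, one_div, mul_inv]
  have h5 := h3.add h4
  rw [add_zero] at h5
  refine h5.congr fun N => ?_
  ring

/-- **Convergence of `∑ μ(n) χ(n) / n`.** -/
theorem conv_char (q : ℕ) [NeZero q] (χ : DirichletCharacter ℂ q) :
    ∃ l : ℂ, Tendsto (A q χ) atTop (𝓝 l) := by
  by_cases h : χ = 1
  · subst h
    exact ⟨0, conv_triv q⟩
  · exact ⟨_, conv_nontriv q χ h⟩

end Pool.Agent.Lib.MP_aae597_nt.CC
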