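import Pool.Agent.Lib.MP_aae597_nt.CharConv

/-!
# Convergence of `∑ μ(n) F(n) / n` for periodic `F`
-/

set_option autoImplicit false

open Filter Topology Finset

namespace Pool.Agent.Lib.MP_aae597_nt.Cl

open Pool.Agent.Lib.MP_aae597_nt

/-- unit classes -/
lemma unit_class (q : ℕ) [NeZero q] (r : ZMod q) (hr : IsUnit r) :
    ∃ l : ℂ, Tendsto (fun N : ℕ => ∑ n ∈ Finset.Ioc 0 N,
      if (n : ZMod q) = r then ((ArithmeticFunction.moebius n : ℤ) : ℂ) / n else 0) atTop (𝓝 l) := by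
  classical
  have h1 : ∀ χ : DirichletCharacter ℂ q, ∃ l : ℂ, Tendsto (CC.A q χ) atTop (𝓝 l) :=
    fun χ => CC.conv_char q χ
  choose l hl using h1
  have hφ : (q.totient : ℂ) ≠ 0 := by
    have := Nat.totient_pos.2 (Nat.pos_of_ne_zero (NeZero.ne q))
    exact_mod_cast this.ne'
  refine ⟨(q.totient : ℂ)⁻¹ * ∑ χ : DirichletCharacter ℂ q, χ r⁻¹ * l χ, ?_⟩
  have h2 : Tendsto (fun N : ℕ => (q.totient : ℂ)⁻¹ * ∑ χ : DirichletCharacter ℂ q,
      χ r⁻¹ * CC.A q χ N) atTop (𝓝 ((q.totient : ℂ)⁻¹ * ∑ χ : DirichletCharacter ℂ q, χ r⁻¹ * l χ)) :=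
    (tendsto_finsetSum _ fun χ _ => (hl χ).const_mul _).const_mul _
  refine h2.congr fun N => ?_
  unfold CC.A
  simp only [Finset.mul_sum]
  rw [Finset.sum_comm]
  refine Finset.sum_congr rfl fun n _ => ?_
  have h3 := DirichletCharacter.sum_char_inv_mul_char_eq ℂ hr (n : ZMod q)
  have h4 : ∑ χ : DirichletCharacter ℂ q, (q.totient : ℂ)⁻¹ * (χ r⁻¹ * (Mu.a q χ n / n)) =
      (q.totient : ℂ)⁻¹ * (∑ χ : DirichletCharacter ℂ q, χ r⁻¹ * χ (n : ZMod q)) *
        (((ArithmeticFunction.moebius n : ℤ) : ℂ) / n) := by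
    rw [Finset.mul_sum, Finset.sum_mul]
    refine Finset.sum_congr rfl fun χ _ => ?_
    unfold Mu.a
    ring
  rw [h4, h3]
  by_cases h : r = (n : ZMod q)
  · rw [if_pos h, if_pos h.symm, inv_mul_cancel₀ hφ, one_mul]
  · rw [if_neg h, if_neg (fun h' => h h'.symm), mul_zero, zero_mul]

/-- functions on the unit classes -/
lemma coprime_sum (q : ℕ) [NeZero q] (F : ZMod q → ℂ) :
    ∃ l : ℂ, Tendsto (fun N : ℕ => ∑ n ∈ Finset.Ioc 0 N,
      if Nat.Coprime n q then ((ArithmeticFunction.moebius n : ℤ) : ℂ) / n * F n else 0)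
      atTop (𝓝 l) := by
  classical
  have h1 : ∀ u : (ZMod q)ˣ, ∃ l : ℂ, Tendsto (fun N : ℕ => ∑ n ∈ Finset.Ioc 0 N,
      if (n : ZMod q) = u then ((ArithmeticFunction.moebius n : ℤ) : ℂ) / n else 0) atTop (𝓝 l) :=
    fun u => unit_class q u u.isUnit
  choose l hl using h1
  refine ⟨∑ u : (ZMod q)ˣ, F u * l u, ?_⟩
  have h2 := tendsto_finsetSum Finset.univ fun (u : (ZMod q)ˣ) _ => (hl u).const_mul (F u)
  refine h2.congr fun N => ?_
  simp only [Finset.mul_sum]
  rw [Finset.sum_comm]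
  refine Finset.sum_congr rfl fun n _ => ?_
  by_cases h : Nat.Coprime n q
  · rw [if_pos h, Finset.sum_eq_single (ZMod.unitOfCoprime n h)]
    · rw [if_pos (by rw [ZMod.coe_unitOfCoprime]), ZMod.coe_unitOfCoprime]
      ring
    · intro u _ hu
      rw [if_neg, mul_zero]
      intro h'
      apply hu
      apply Units.ext
      rw [ZMod.coe_unitOfCoprime, h']
    · intro h'
      exact absurd (Finset.mem_univ _) h'
  · rw [if_neg h]
    refine Finset.sum_eq_zero fun u _ => ?_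
    rw [if_neg, mul_zero]
    intro h'
    apply h
    rw [← ZMod.isUnit_iff_coprime, h']
    exact u.isUnit

/-- the terms with `gcd(n, q) = d` -/
lemma gcd_class (q : ℕ) [NeZero q] (F : ZMod q → ℂ) (d : ℕ) (hd : d ∣ q) (N : ℕ) :
    ∑ n ∈ (Finset.Ioc 0 N).filter (fun n => Nat.gcd n q = d),
      ((ArithmeticFunction.moebius n : ℤ) : ℂ) / n * F n =
    ((ArithmeticFunction.moebius d : ℤ) : ℂ) / d * ∑ m ∈ Finset.Ioc 0 (N / d),
      if Nat.Coprime m q then ((ArithmeticFunction.moebius m : ℤ) : ℂ) / m * F ((d : ZMod q) * m)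
        else 0 := by
  classical
  have hq : 0 < q := Nat.pos_of_ne_zero (NeZero.ne q)
  have hd0 : 0 < d := Nat.pos_of_dvd_of_pos hd hq
  have hdC : (d : ℂ) ≠ 0 := by exact_mod_cast hd0.ne'
  obtain ⟨e, he⟩ := hd
  have hgcd : ∀ m, Nat.gcd (d * m) q = d ↔ Nat.Coprime m e := by
    intro m
    rw [he, Nat.gcd_mul_left]
    constructor
    · intro h
      exact Nat.eq_of_mul_eq_mul_left hd0 (by rw [h, mul_one])
    · intro h
      rw [Nat.Coprime.gcd_eq_one h, mul_one]
  have h1 : ∑ n ∈ (Finset.Ioc 0 N).filter (fun n => Nat.gcd n q = d),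
      ((ArithmeticFunction.moebius n : ℤ) : ℂ) / n * F n =
      ∑ m ∈ (Finset.Ioc 0 (N / d)).filter (fun m => Nat.Coprime m e),
        ((ArithmeticFunction.moebius (d * m) : ℤ) : ℂ) / ((d * m : ℕ) : ℂ) *
          F ((d * m : ℕ) : ZMod q) := by
    symm
    refine Finset.sum_bij (fun m _ => d * m) ?_ ?_ ?_ ?_
    · intro m hm
      rw [Finset.mem_filter, Finset.mem_Ioc] at hm ⊢
      refine ⟨⟨Nat.mul_pos hd0 hm.1.1, ?_⟩, (hgcd m).2 hm.2⟩
      exact (Nat.mul_le_mul_left d hm.1.2).trans (Nat.mul_div_le N d)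
    · intro m _ m' _ h
      exact Nat.eq_of_mul_eq_mul_left hd0 h
    · intro n hn
      rw [Finset.mem_filter, Finset.mem_Ioc] at hn
      obtain ⟨m, hm⟩ : d ∣ n := by rw [← hn.2]; exact Nat.gcd_dvd_left n q
      refine ⟨m, ?_, hm.symm⟩
      rw [Finset.mem_filter, Finset.mem_Ioc]
      refine ⟨⟨?_, ?_⟩, ?_⟩
      · rcases Nat.eq_zero_or_pos m with h | h
        · rw [h, mul_zero] at hm
          omega
        · exact h
      · rw [Nat.le_div_iff_mul_le hd0, mul_comm, ← hm]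
        exact hn.1.2
      · rw [← hgcd, ← hm]
        exact hn.2
    · intro m _
      rfl
  rw [h1, Finset.sum_filter, Finset.mul_sum]
  refine Finset.sum_congr rfl fun m hm => ?_
  have hm0 : 0 < m := (Finset.mem_Ioc.1 hm).1
  have hmC : (m : ℂ) ≠ 0 := by exact_mod_cast hm0.ne'
  by_cases h2 : Nat.Coprime m e
  · rw [if_pos h2]
    by_cases h3 : Nat.Coprime d m
    · have h4 : Nat.Coprime m q := by
        rw [he]
        exact Nat.Coprime.mul_right h3.symm h2
      rw [if_pos h4, ArithmeticFunction.isMultiplicative_moebius.map_mul_of_coprime h3]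
      push_cast
      field_simp
    · have h4 : ¬ Nat.Coprime m q := by
        intro h
        apply h3
        rw [he] at h
        exact (Nat.Coprime.coprime_mul_right_right h).symm
      rw [if_neg h4, ArithmeticFunction.moebius_eq_zero_of_not_squarefree]
      · simp
      · intro h
        exact h3 (Nat.coprime_of_squarefree_mul h)
  · have h4 : ¬ Nat.Coprime m q := by
      intro h
      apply h2
      rw [he] at h
      exact Nat.Coprime.coprime_mul_left_right h
    rw [if_neg h2, if_neg h4, mul_zero]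

/-- **Convergence for periodic functions.** -/
theorem periodic_sum (q : ℕ) [NeZero q] (F : ZMod q → ℂ) :
    ∃ l : ℂ, Tendsto (fun N : ℕ => ∑ n ∈ Finset.Ioc 0 N,
      ((ArithmeticFunction.moebius n : ℤ) : ℂ) / n * F n) atTop (𝓝 l) := by
  classical
  have hq : 0 < q := Nat.pos_of_ne_zero (NeZero.ne q)
  have h1 : ∀ d : ℕ, ∃ l : ℂ, Tendsto (fun N : ℕ => ∑ m ∈ Finset.Ioc 0 N,
      if Nat.Coprime m q then ((ArithmeticFunction.moebius m : ℤ) : ℂ) / m * F ((d : ZMod q) * m)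
        else 0) atTop (𝓝 l) := fun d => coprime_sum q (fun r => F ((d : ZMod q) * r))
  choose l hl using h1
  refine ⟨∑ d ∈ q.divisors, ((ArithmeticFunction.moebius d : ℤ) : ℂ) / d * l d, ?_⟩
  have h2 : Tendsto (fun N : ℕ => ∑ d ∈ q.divisors, ((ArithmeticFunction.moebius d : ℤ) : ℂ) / d *
      ∑ m ∈ Finset.Ioc 0 (N / d), if Nat.Coprime m q then
        ((ArithmeticFunction.moebius m : ℤ) : ℂ) / m * F ((d : ZMod q) * m) else 0) atTop
      (𝓝 (∑ d ∈ q.divisors, ((ArithmeticFunction.moebius d : ℤ) : ℂ) / d * l d)) := by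
    refine tendsto_finsetSum _ fun d hd => ?_
    have hd0 : 0 < d := Nat.pos_of_mem_divisors hd
    exact ((hl d).comp (Nat.tendsto_div_const_atTop hd0.ne')).const_mul _
  refine h2.congr fun N => ?_
  rw [← Finset.sum_fiberwise_of_maps_to (s := Finset.Ioc 0 N) (t := q.divisors)
    (g := fun n => Nat.gcd n q) (fun n _ => Nat.mem_divisors.2 ⟨Nat.gcd_dvd_right n q, hq.ne'⟩)]
  refine Finset.sum_congr rfl fun d hd => ?_
  rw [gcd_class q F d (Nat.dvd_of_mem_divisors hd) N]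

end Pool.Agent.Lib.MP_aae597_nt.Cl
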