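import Mathlib

/-!
# Generic divergence of weighted sums along an infinite orbit
-/

set_option autoImplicit false
set_option linter.unusedSectionVars false

open Filter Topology Set Finset

namespace Pool.Agent.Lib.MP_aae597_nt.Generic

variable {X : Type*} [MetricSpace X] [CompactSpace X]

/-- The sums `∑_{n ≤ N} a n * f (x n)`. -/
noncomputable def S (a : ℕ → ℂ) (x : ℕ → X) (f : C(X, ℂ)) (N : ℕ) : ℂ :=
  ∑ n ∈ Finset.Icc 1 N, a n * f (x n)

lemma S_add (a : ℕ → ℂ) (x : ℕ → X) (f g : C(X, ℂ)) (N : ℕ) :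
    S a x (f + g) N = S a x f N + S a x g N := by
  unfold S
  rw [← Finset.sum_add_distrib]
  refine Finset.sum_congr rfl fun n _ => ?_
  rw [ContinuousMap.add_apply]
  ring

lemma S_smul (a : ℕ → ℂ) (x : ℕ → X) (c : ℂ) (f : C(X, ℂ)) (N : ℕ) :
    S a x (c • f) N = c * S a x f N := by
  unfold S
  rw [Finset.mul_sum]
  refine Finset.sum_congr rfl fun n _ => ?_
  rw [ContinuousMap.smul_apply, smul_eq_mul]
  ring

lemma continuous_S (a : ℕ → ℂ) (x : ℕ → X) (N : ℕ) :
    Continuous (fun f : C(X, ℂ) => S a x f N) := by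
  unfold S
  refine continuous_finsetSum _ fun n _ => ?_
  exact continuous_const.mul (continuous_eval_const (x n))

/-- Interpolation at finitely many points. -/
lemma exists_interp (x : ℕ → X) (hx : Function.Injective x) (c : ℕ → ℂ) (hc : ∀ n, ‖c n‖ ≤ 1)
    (N : ℕ) : ∃ g : C(X, ℂ), ‖g‖ ≤ 1 ∧ ∀ n ∈ Finset.Icc 1 N, g (x n) = c n := by
  classical
  -- a common lower bound for the distances
  obtain ⟨δ, hδ, hsep⟩ : ∃ δ : ℝ, 0 < δ ∧ ∀ i ∈ Finset.Icc 1 N, ∀ j ∈ Finset.Icc 1 N, i ≠ j →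
      2 * δ ≤ dist (x i) (x j) := by
    by_cases hne : ((Finset.Icc 1 N ×ˢ Finset.Icc 1 N).filter fun p => p.1 ≠ p.2).Nonempty
    · obtain ⟨p, hp, hmin⟩ := Finset.exists_min_image _
        (fun p : ℕ × ℕ => dist (x p.1) (x p.2)) hne
      rw [Finset.mem_filter] at hp
      refine ⟨dist (x p.1) (x p.2) / 2, ?_, ?_⟩
      · have : 0 < dist (x p.1) (x p.2) := dist_pos.2 fun h => hp.2 (hx h)
        linarith
      · intro i hi j hj hij
        have := hmin (i, j) (by
          rw [Finset.mem_filter, Finset.mem_product]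
          exact ⟨⟨hi, hj⟩, hij⟩)
        simp only at this
        linarith
    · refine ⟨1, one_pos, ?_⟩
      intro i hi j hj hij
      exact absurd ⟨(i, j), by
        rw [Finset.mem_filter, Finset.mem_product]
        exact ⟨⟨hi, hj⟩, hij⟩⟩ hne
  let b : ℕ → X → ℝ := fun i y => max 0 (1 - dist y (x i) / δ)
  have hb0 : ∀ i y, 0 ≤ b i y := fun i y => le_max_left _ _
  have hb1 : ∀ i y, b i y ≤ 1 := by
    intro i y
    refine max_le zero_le_one ?_
    have : 0 ≤ dist y (x i) / δ := by positivity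
    linarith
  have hbz : ∀ i y, δ ≤ dist y (x i) → b i y = 0 := by
    intro i y h
    refine max_eq_left ?_
    have : 1 ≤ dist y (x i) / δ := by rwa [le_div_iff₀ hδ, one_mul]
    linarith
  have hbc : ∀ i, Continuous (b i) := by
    intro i
    exact continuous_const.max
      (continuous_const.sub ((continuous_id.dist continuous_const).div_const δ))
  let g : C(X, ℂ) := ⟨fun y => ∑ i ∈ Finset.Icc 1 N, c i * ((b i y : ℝ) : ℂ), by
    refine continuous_finsetSum _ fun i _ => ?_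
    exact continuous_const.mul (Complex.continuous_ofReal.comp (hbc i))⟩
  refine ⟨g, ?_, ?_⟩
  · rw [ContinuousMap.norm_le _ zero_le_one]
    intro y
    change ‖∑ i ∈ Finset.Icc 1 N, c i * ((b i y : ℝ) : ℂ)‖ ≤ 1
    by_cases hy : ∃ i ∈ Finset.Icc 1 N, dist y (x i) < δ
    · obtain ⟨i, hi, hyi⟩ := hy
      rw [Finset.sum_eq_single i]
      · rw [norm_mul, Complex.norm_real, Real.norm_of_nonneg (hb0 i y)]
        exact mul_le_one₀ (hc i) (hb0 i y) (hb1 i y)
      · intro j hj hji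
        rw [hbz j y, Complex.ofReal_zero, mul_zero]
        have h1 := hsep i hi j hj (Ne.symm hji)
        have h2 := dist_triangle (x i) y (x j)
        rw [dist_comm (x i) y] at h2
        linarith
      · intro h
        exact absurd hi h
    · push Not at hy
      rw [Finset.sum_eq_zero, norm_zero]
      · exact zero_le_one
      · intro i hi
        rw [hbz i y (hy i hi), Complex.ofReal_zero, mul_zero]
  · intro n hn
    change ∑ i ∈ Finset.Icc 1 N, c i * ((b i (x n) : ℝ) : ℂ) = c n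
    rw [Finset.sum_eq_single n]
    · have : b n (x n) = 1 := by
        simp only [b, dist_self, zero_div, sub_zero]
        exact max_eq_right zero_le_one
      rw [this, Complex.ofReal_one, mul_one]
    · intro j hj hjn
      rw [hbz j (x n), Complex.ofReal_zero, mul_zero]
      have h1 := hsep n hn j hj (Ne.symm hjn)
      linarith
    · intro h
      exact absurd hn h

/-- A unit test function realising the norm of `S a x · N`. -/
lemma exists_test (a : ℕ → ℂ) (x : ℕ → X) (hx : Function.Injective x) (N : ℕ) :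
    ∃ g : C(X, ℂ), ‖g‖ ≤ 1 ∧ S a x g N = ((∑ n ∈ Finset.Icc 1 N, ‖a n‖ : ℝ) : ℂ) := by
  obtain ⟨g, hg, hgv⟩ := exists_interp x hx (fun n => (starRingEnd ℂ (a n)) / ‖a n‖) (by
    intro n
    rw [norm_div, RCLike.norm_conj, Complex.norm_real, norm_norm]
    exact div_self_le_one _) N
  refine ⟨g, hg, ?_⟩
  unfold S
  rw [Complex.ofReal_sum]
  refine Finset.sum_congr rfl fun n hn => ?_
  rw [hgv n hn]
  by_cases h : a n = 0
  · rw [h]; simp
  · have h0 : ((‖a n‖ : ℝ) : ℂ) ≠ 0 := by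
      rw [Ne, Complex.ofReal_eq_zero]
      exact norm_ne_zero_iff.2 h
    rw [mul_div_assoc', Complex.mul_conj, Complex.normSq_eq_norm_sq]
    field_simp
    push_cast
    ring

/-- The set of `f` with a large sum beyond `N₀` is dense and open. -/
lemma dense_open (a : ℕ → ℂ) (x : ℕ → X) (hx : Function.Injective x) (h : ℕ → ℝ)
    (hlittle : h =o[atTop] fun N => ∑ n ∈ Finset.Icc 1 N, ‖a n‖) (hpos : ∀ N, 0 < h N)
    (K : ℝ) (N₀ : ℕ) :
    IsOpen {f : C(X, ℂ) | ∃ N, N₀ ≤ N ∧ K * h N < ‖S a x f N‖} ∧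
    Dense {f : C(X, ℂ) | ∃ N, N₀ ≤ N ∧ K * h N < ‖S a x f N‖} := by
  constructor
  · have : {f : C(X, ℂ) | ∃ N, N₀ ≤ N ∧ K * h N < ‖S a x f N‖} =
        ⋃ N : ℕ, ⋃ _ : N₀ ≤ N, {f : C(X, ℂ) | K * h N < ‖S a x f N‖} := by
      ext f
      simp
    rw [this]
    refine isOpen_iUnion fun N => isOpen_iUnion fun _ => ?_
    exact isOpen_lt continuous_const (continuous_S a x N).norm
  · rw [Metric.dense_iff]
    intro f r hr
    by_cases hf : ∃ N, N₀ ≤ N ∧ K * h N < ‖S a x f N‖
    · exact ⟨f, Metric.mem_ball_self hr, hf⟩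
    push Not at hf
    -- choose `N`
    have hK : 0 < |K| + 1 := by positivity
    have hc : (0 : ℝ) < r / (8 * (|K| + 1)) := by positivity
    have hev := (Asymptotics.isLittleO_iff.1 hlittle) hc
    obtain ⟨N, hN1, hN0⟩ := (hev.and (eventually_ge_atTop N₀)).exists
    obtain ⟨g, hg, hgS⟩ := exists_test a x hx N
    refine ⟨f + ((r / 2 : ℝ) : ℂ) • g, ?_, N, hN0, ?_⟩
    · rw [Metric.mem_ball, dist_eq_norm, add_sub_cancel_left, norm_smul, Complex.norm_real,
        Real.norm_of_nonneg (by positivity)]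
      nlinarith
    · rw [S_add, S_smul, hgS]
      have hA : 0 ≤ ∑ n ∈ Finset.Icc 1 N, ‖a n‖ := Finset.sum_nonneg fun _ _ => norm_nonneg _
      rw [Real.norm_of_nonneg (hpos N).le, Real.norm_of_nonneg hA] at hN1
      have h1 := hf N hN0
      have h2 : ‖((r / 2 : ℝ) : ℂ) * ((∑ n ∈ Finset.Icc 1 N, ‖a n‖ : ℝ) : ℂ)‖ =
          r / 2 * ∑ n ∈ Finset.Icc 1 N, ‖a n‖ := by
        rw [norm_mul, Complex.norm_real, Complex.norm_real, Real.norm_of_nonneg (by positivity),
          Real.norm_of_nonneg hA]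
      have h3 : ‖((r / 2 : ℝ) : ℂ) * ((∑ n ∈ Finset.Icc 1 N, ‖a n‖ : ℝ) : ℂ)‖ ≤
          ‖S a x f N + ((r / 2 : ℝ) : ℂ) * ((∑ n ∈ Finset.Icc 1 N, ‖a n‖ : ℝ) : ℂ)‖ +
            ‖S a x f N‖ := by
        calc _ = ‖(S a x f N + ((r / 2 : ℝ) : ℂ) * ((∑ n ∈ Finset.Icc 1 N, ‖a n‖ : ℝ) : ℂ)) -
              S a x f N‖ := by rw [add_sub_cancel_left]
          _ ≤ _ := norm_sub_le _ _
      rw [h2] at h3
      have h4 : 8 * (|K| + 1) * h N ≤ r * ∑ n ∈ Finset.Icc 1 N, ‖a n‖ := by
        have h5 : r / (8 * (|K| + 1)) * ∑ n ∈ Finset.Icc 1 N, ‖a n‖ =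
            (r * ∑ n ∈ Finset.Icc 1 N, ‖a n‖) / (8 * (|K| + 1)) := by ring
        rw [h5, le_div_iff₀ (by positivity)] at hN1
        linarith
      have h6 : K * h N ≤ |K| * h N := mul_le_mul_of_nonneg_right (le_abs_self K) (hpos N).le
      have h7 := hpos N
      nlinarith [mul_nonneg (abs_nonneg K) h7.le]

/-- Generic divergence faster than `h`. -/
theorem generic (a : ℕ → ℂ) (x : ℕ → X) (hx : Function.Injective x) (h : ℕ → ℝ)
    (hlittle : h =o[atTop] fun N => ∑ n ∈ Finset.Icc 1 N, ‖a n‖) (hpos : ∀ N, 0 < h N) :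
    ∀ᶠ f in residual C(X, ℂ), ∀ K : ℝ, ∃ᶠ N in atTop, K * h N < ‖S a x f N‖ := by
  have h1 : ∀ᶠ f in residual C(X, ℂ), ∀ p : ℕ × ℕ, ∃ N, p.2 ≤ N ∧
      (p.1 : ℝ) * h N < ‖S a x f N‖ := by
    rw [eventually_countable_forall]
    intro p
    obtain ⟨ho, hd⟩ := dense_open a x hx h hlittle hpos (p.1 : ℝ) p.2
    exact residual_of_dense_open ho hd
  filter_upwards [h1] with f hf K
  rw [frequently_atTop]
  intro N₀
  obtain ⟨k, hk⟩ := exists_nat_ge K
  obtain ⟨N, hN, hlt⟩ := hf (k, N₀)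
  refine ⟨N, hN, lt_of_le_of_lt ?_ hlt⟩
  exact mul_le_mul_of_nonneg_right hk (hpos N).le

/-- Generic divergence at generic points, if the points with an infinite orbit are dense. -/
theorem generic_generic (T : X → X) (hT : Continuous T) (a : ℕ → ℂ) (D : Set X) (hD : Dense D)
    (hinj : ∀ y ∈ D, Function.Injective fun n : ℕ => T^[n] y) (h : ℕ → ℝ)
    (hlittle : h =o[atTop] fun N => ∑ n ∈ Finset.Icc 1 N, ‖a n‖) (hpos : ∀ N, 0 < h N) :
    ∀ᶠ f in residual C(X, ℂ), ∀ᶠ y in residual X, ∀ K : ℝ, ∃ᶠ N in atTop,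
      K * h N < ‖S a (fun n => T^[n] y) f N‖ := by
  obtain ⟨D₀, hD₀, hc, hd⟩ := hD.exists_countable_dense_subset
  have h1 : ∀ᶠ f in residual C(X, ℂ), ∀ y ∈ D₀, ∀ K : ℝ, ∃ᶠ N in atTop,
      K * h N < ‖S a (fun n => T^[n] y) f N‖ := by
    rw [eventually_countable_ball hc]
    intro y hy
    exact generic a _ (hinj y (hD₀ hy)) h hlittle hpos
  filter_upwards [h1] with f hf
  have h2 : ∀ᶠ y in residual X, ∀ p : ℕ × ℕ, ∃ N, p.2 ≤ N ∧
      (p.1 : ℝ) * h N < ‖S a (fun n => T^[n] y) f N‖ := by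
    rw [eventually_countable_forall]
    intro p
    refine residual_of_dense_open ?_ (hd.mono ?_)
    · have : {y : X | ∃ N, p.2 ≤ N ∧ (p.1 : ℝ) * h N < ‖S a (fun n => T^[n] y) f N‖} =
          ⋃ N : ℕ, ⋃ _ : p.2 ≤ N, {y : X | (p.1 : ℝ) * h N < ‖S a (fun n => T^[n] y) f N‖} := by
        ext y
        simp
      rw [this]
      refine isOpen_iUnion fun N => isOpen_iUnion fun _ => ?_
      refine isOpen_lt continuous_const (Continuous.norm ?_)
      unfold S
      refine continuous_finsetSum _ fun n _ => ?_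
      exact continuous_const.mul (f.continuous.comp (hT.iterate n))
    · intro y hy
      obtain ⟨N, hN, hlt⟩ := (frequently_atTop.1 (hf y hy (p.1 : ℝ))) p.2
      exact ⟨N, hN, hlt⟩
  filter_upwards [h2] with y hy K
  rw [frequently_atTop]
  intro N₀
  obtain ⟨k, hk⟩ := exists_nat_ge K
  obtain ⟨N, hN, hlt⟩ := hy (k, N₀)
  refine ⟨N, hN, lt_of_le_of_lt ?_ hlt⟩
  exact mul_le_mul_of_nonneg_right hk (hpos N).le

/-- The forward orbit of `y` is infinite iff its points are distinct. -/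
lemma injective_of_infinite {Y : Type*} (T : Y → Y) (y : Y)
    (h : (Set.range fun n : ℕ => T^[n] y).Infinite) :
    Function.Injective fun n : ℕ => T^[n] y := by
  by_contra hni
  apply h
  rw [Function.Injective] at hni
  push Not at hni
  obtain ⟨i, j, hij, hne⟩ := hni
  wlog hlt : i < j generalizing i j
  · exact this j i hij.symm hne.symm (by omega)
  refine (Set.finite_lt_nat j).image (fun n => T^[n] y) |>.subset ?_
  rintro _ ⟨n, rfl⟩
  change ∃ m : ℕ, m < j ∧ T^[m] y = T^[n] y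
  induction n using Nat.strong_induction_on with
  | _ n ih =>
    by_cases hn : n < j
    · exact ⟨n, hn, rfl⟩
    · obtain ⟨m, hm, hmeq⟩ := ih (n - j + i) (by omega)
      refine ⟨m, hm, ?_⟩
      rw [hmeq, Function.iterate_add_apply, hij, ← Function.iterate_add_apply]
      congr 1
      omega

end Pool.Agent.Lib.MP_aae597_nt.Generic
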