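import Pool.Agent.Lib.MP_aae597_nt.WI

/-!
# Mean values of `μ χ`
-/

set_option autoImplicit false

open Filter Topology Finset

namespace Pool.Agent.Lib.MP_aae597_nt.Mu

/-- `1 / L(s, χ)`, with its value at `s = 1`. -/
noncomputable def invL (q : ℕ) [NeZero q] (χ : DirichletCharacter ℂ q) (s : ℂ) : ℂ :=
  open Classical in
  if χ = 1 then (s - 1) / DirichletCharacter.LFunctionTrivChar₁ q s else (χ.LFunction s)⁻¹

lemma triv_ne_zero (q : ℕ) [NeZero q] (s : ℂ) (hs : 1 ≤ s.re) :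
    DirichletCharacter.LFunctionTrivChar₁ q s ≠ 0 := by
  rcases eq_or_ne s 1 with rfl | h
  · exact DirichletCharacter.LFunctionTrivChar₁_apply_one_ne_zero q
  · rw [DirichletCharacter.LFunctionTrivChar₁, Function.update_of_ne h]
    exact mul_ne_zero (sub_ne_zero_of_ne h)
      (DirichletCharacter.LFunction_ne_zero_of_one_le_re 1 (Or.inr h) hs)

lemma continuousOn_invL (q : ℕ) [NeZero q] (χ : DirichletCharacter ℂ q) :
    ContinuousOn (invL q χ) {s : ℂ | 1 ≤ s.re} := by
  unfold invL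
  by_cases h : χ = 1
  · simp only [h, if_true]
    exact (continuous_id.sub continuous_const).continuousOn.div
      (DirichletCharacter.differentiable_LFunctionTrivChar₁ q).continuous.continuousOn
      fun s hs => triv_ne_zero q s hs
  · simp only [h, if_false]
    exact (DirichletCharacter.differentiable_LFunction h).continuous.continuousOn.inv₀
      fun s hs => DirichletCharacter.LFunction_ne_zero_of_one_le_re χ (Or.inl h) hs

/-- the twisted Moebius function -/
noncomputable def a (q : ℕ) (χ : DirichletCharacter ℂ q) (n : ℕ) : ℂ :=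
  χ (n : ZMod q) * ((ArithmeticFunction.moebius n : ℤ) : ℂ)

lemma norm_a_le (q : ℕ) (χ : DirichletCharacter ℂ q) (n : ℕ) : ‖a q χ n‖ ≤ 1 := by
  unfold a
  rw [norm_mul]
  refine mul_le_one₀ (χ.norm_le_one _) (norm_nonneg _) ?_
  rw [Complex.norm_intCast]
  exact_mod_cast ArithmeticFunction.abs_moebius_le_one

lemma summable_a (q : ℕ) (χ : DirichletCharacter ℂ q) (s : ℂ) (hs : 1 < s.re) :
    LSeriesSummable (a q χ) s :=
  DirichletCharacter.LSeriesSummable_mul χ
    (ArithmeticFunction.LSeriesSummable_moebius_iff.mpr hs)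

lemma LSeries_a (q : ℕ) [NeZero q] (χ : DirichletCharacter ℂ q) (s : ℂ) (hs : 1 < s.re) :
    LSeries (a q χ) s = invL q χ s := by
  have h1 : LSeries (fun n : ℕ => χ (n : ZMod q)) s * LSeries (a q χ) s = 1 :=
    DirichletCharacter.LSeries.mul_mu_eq_one χ hs
  rw [← DirichletCharacter.LFunction_eq_LSeries χ hs] at h1
  have hs1 : s ≠ 1 := by
    rintro rfl
    simp at hs
  unfold invL
  by_cases h : χ = 1
  · rw [if_pos h, DirichletCharacter.LFunctionTrivChar₁, Function.update_of_ne hs1]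
    subst h
    have h2 : DirichletCharacter.LFunctionTrivChar q s ≠ 0 :=
      DirichletCharacter.LFunction_ne_zero_of_one_le_re 1 (Or.inr hs1) hs.le
    have h3 : s - 1 ≠ 0 := sub_ne_zero_of_ne hs1
    rw [eq_div_iff (mul_ne_zero h3 h2)]
    have h4 : DirichletCharacter.LFunctionTrivChar q s * LSeries (a q 1) s = 1 := h1
    calc LSeries (a q 1) s * ((s - 1) * DirichletCharacter.LFunctionTrivChar q s)
        = (s - 1) * (DirichletCharacter.LFunctionTrivChar q s * LSeries (a q 1) s) := by ring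
      _ = s - 1 := by rw [h4, mul_one]
  · rw [if_neg h]
    exact eq_inv_of_mul_eq_one_right h1

/-- `ζ(s) - 1/(s-1)` -/
noncomputable def zet : ℂ → ℂ :=
  Function.update (fun s => riemannZeta s - 1 / (s - 1)) 1 (Real.eulerMascheroniConstant : ℂ)

lemma continuous_zet : Continuous zet := by
  rw [continuous_iff_continuousAt]
  intro s
  unfold zet
  rcases eq_or_ne s 1 with rfl | h
  · rw [continuousAt_update_same]
    exact tendsto_riemannZeta_sub_one_div
  · rw [continuousAt_update_of_ne h]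
    exact (differentiableAt_riemannZeta h).continuousAt.sub
      (continuousAt_const.div (continuousAt_id.sub continuousAt_const) (sub_ne_zero_of_ne h))

/-- The nonnegative coefficients `1 + Re (u a(n))`. -/
noncomputable def c (q : ℕ) (χ : DirichletCharacter ℂ q) (u : ℂ) (n : ℕ) : ℝ :=
  1 + (u * a q χ n).re

lemma c_nonneg (q : ℕ) (χ : DirichletCharacter ℂ q) (u : ℂ) (hu : ‖u‖ ≤ 1) (n : ℕ) :
    0 ≤ c q χ u n := by
  unfold c
  have h1 : |(u * a q χ n).re| ≤ ‖u * a q χ n‖ := Complex.abs_re_le_norm _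
  have h2 : ‖u * a q χ n‖ ≤ 1 := by
    rw [norm_mul]
    exact mul_le_one₀ hu (norm_nonneg _) (norm_a_le q χ n)
  have h3 := neg_abs_le (u * a q χ n).re
  linarith

lemma c_le (q : ℕ) (χ : DirichletCharacter ℂ q) (u : ℂ) (hu : ‖u‖ ≤ 1) (n : ℕ) :
    c q χ u n ≤ 2 := by
  unfold c
  have h1 : |(u * a q χ n).re| ≤ ‖u * a q χ n‖ := Complex.abs_re_le_norm _
  have h2 : ‖u * a q χ n‖ ≤ 1 := by
    rw [norm_mul]
    exact mul_le_one₀ hu (norm_nonneg _) (norm_a_le q χ n)
  have h3 := le_abs_self (u * a q χ n).re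
  linarith

lemma conj_a (q : ℕ) [NeZero q] (χ : DirichletCharacter ℂ q) (n : ℕ) :
    starRingEnd ℂ (a q χ n) = a q χ⁻¹ n := by
  unfold a
  rw [map_mul, map_intCast]
  congr 1
  exact MulChar.star_apply' χ (n : ZMod q)

lemma psum_c_le (q : ℕ) (χ : DirichletCharacter ℂ q) (u : ℂ) (hu : ‖u‖ ≤ 1) (x : ℝ)
    (hx : 0 ≤ x) : WI.psum (c q χ u) x ≤ 2 * x := by
  unfold WI.psum
  calc ∑ n ∈ Finset.Icc 1 ⌊x⌋₊, c q χ u n ≤ ∑ n ∈ Finset.Icc 1 ⌊x⌋₊, (2 : ℝ) :=
        Finset.sum_le_sum fun n _ => c_le q χ u hu n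
    _ = 2 * (⌊x⌋₊ : ℝ) := by
        rw [Finset.sum_const, Nat.card_Icc, nsmul_eq_mul]
        push_cast
        ring
    _ ≤ 2 * x := by linarith [Nat.floor_le hx]

lemma LSeries_c (q : ℕ) [NeZero q] (χ : DirichletCharacter ℂ q) (u : ℂ) (s : ℂ)
    (hs : 1 < s.re) :
    LSeries (fun n => (c q χ u n : ℂ)) s =
      (zet s + (1 / 2) * (u * invL q χ s + starRingEnd ℂ u * invL q χ⁻¹ s)) +
        ((1 : ℝ) : ℂ) / (s - 1) := by
  have hs1 : s ≠ 1 := by
    rintro rfl
    simp at hs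
  have h1 := LSeriesHasSum_one hs
  have h2 := ((summable_a q χ s hs).LSeriesHasSum).smul (u / 2)
  have h3 := ((summable_a q χ⁻¹ s hs).LSeriesHasSum).smul (starRingEnd ℂ u / 2)
  have h4 := (h1.add h2).add h3
  have h5 : (1 + (u / 2) • a q χ + (starRingEnd ℂ u / 2) • a q χ⁻¹ : ℕ → ℂ) =
      fun n => (c q χ u n : ℂ) := by
    funext n
    simp only [Pi.add_apply, Pi.one_apply, Pi.smul_apply, smul_eq_mul, c]
    rw [← conj_a, Complex.ofReal_add, Complex.ofReal_one, Complex.re_eq_add_conj, map_mul]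
    ring
  rw [h5] at h4
  rw [h4.LSeries_eq, LSeries_a q χ s hs, LSeries_a q χ⁻¹ s hs, zet,
    Function.update_of_ne hs1]
  push_cast
  ring

lemma tendsto_c (q : ℕ) [NeZero q] (χ : DirichletCharacter ℂ q) (u : ℂ) (hu : ‖u‖ ≤ 1) :
    Tendsto (fun x : ℝ => WI.psum (c q χ u) x / x) atTop (𝓝 1) := by
  refine WI.wiener_ikehara (c q χ u) (c_nonneg q χ u hu) 2 (psum_c_le q χ u hu) 1
    (fun s => zet s + (1 / 2) * (u * invL q χ s + starRingEnd ℂ u * invL q χ⁻¹ s)) ?_ ?_
  · refine continuous_zet.continuousOn.add (continuousOn_const.mul ?_)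
    exact (continuousOn_const.mul (continuousOn_invL q χ)).add
      (continuousOn_const.mul (continuousOn_invL q χ⁻¹))
  · intro s hs
    exact LSeries_c q χ u s hs

/-- partial sums of `μ χ` -/
noncomputable def Ms (q : ℕ) (χ : DirichletCharacter ℂ q) (N : ℕ) : ℂ :=
  ∑ n ∈ Finset.Icc 1 N, a q χ n

lemma tendsto_re (q : ℕ) [NeZero q] (χ : DirichletCharacter ℂ q) (u : ℂ) (hu : ‖u‖ ≤ 1) :
    Tendsto (fun N : ℕ => (u * Ms q χ N).re / N) atTop (𝓝 0) := by
  have h1 := (tendsto_c q χ u hu).comp tendsto_natCast_atTop_atTop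
  have h2 : Tendsto (fun N : ℕ => WI.psum (c q χ u) N / N - 1) atTop (𝓝 0) := by
    have := h1.sub_const 1
    rw [sub_self] at this
    exact this
  refine h2.congr' ?_
  filter_upwards [eventually_gt_atTop 0] with N hN
  have hN0 : (N : ℝ) ≠ 0 := by positivity
  have h3 : WI.psum (c q χ u) N = N + (u * Ms q χ N).re := by
    unfold WI.psum Ms c
    rw [Nat.floor_natCast, Finset.sum_add_distrib, Finset.sum_const, Nat.card_Icc, Finset.mul_sum,
      Complex.re_sum]
    simp
  rw [h3]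
  field_simp
  ring

/-- **Mean value zero of `μ χ`.** -/
theorem tendsto_Ms (q : ℕ) [NeZero q] (χ : DirichletCharacter ℂ q) :
    Tendsto (fun N : ℕ => Ms q χ N / N) atTop (𝓝 0) := by
  have h1 := tendsto_re q χ 1 (by simp)
  have h2 := tendsto_re q χ (-Complex.I) (by simp)
  rw [tendsto_zero_iff_norm_tendsto_zero]
  have h3 : Tendsto (fun N : ℕ => |(1 * Ms q χ N).re / N| + |(-Complex.I * Ms q χ N).re / N|)
      atTop (𝓝 0) := by
    have := (h1.abs).add (h2.abs)
    simpa using this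
  refine squeeze_zero (fun N => norm_nonneg _) (fun N => ?_) h3
  have h4 : ‖Ms q χ N / N‖ = ‖Ms q χ N‖ / N := by
    rw [norm_div, Complex.norm_natCast]
  rw [h4, abs_div, abs_div, Nat.abs_cast, ← add_div]
  refine div_le_div_of_nonneg_right ?_ (Nat.cast_nonneg N)
  have h5 := Complex.norm_le_abs_re_add_abs_im (Ms q χ N)
  have h6 : (-Complex.I * Ms q χ N).re = (Ms q χ N).im := by
    simp
  rw [one_mul, h6]
  exact h5

end Pool.Agent.Lib.MP_aae597_nt.Mu
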