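import Pool.Agent.Lib.MP_aae597_nt.Classes
import Pool.Agent.Lib.MP_aae597_nt.Generic

/-!
# Finite orbits, the logarithmic size, oscillation
-/

set_option autoImplicit false
set_option linter.unusedSectionVars false

open Filter Topology Finset

namespace Pool.Agent.Lib.MP_aae597_nt.Orb

open Pool.Agent.Lib.MP_aae597_nt

lemma Icc_eq_Ioc (N : ℕ) : Finset.Icc 1 N = Finset.Ioc 0 N := by
  ext n
  simp only [Finset.mem_Icc, Finset.mem_Ioc]
  omega

/-- An eventually periodic orbit. -/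
lemma eventually_periodic {X : Type*} (T : X → X) (x : X) (i p : ℕ)
    (h : T^[i + p] x = T^[i] x) (n : ℕ) (hn : i * p ≤ n) (hp : 0 < p) :
    T^[n] x = T^[i * p + n % p] x := by
  have h1 : ∀ m, i ≤ m → ∀ k, T^[m + k * p] x = T^[m] x := by
    intro m hm k
    induction k with
    | zero => simp
    | succ k ih =>
      obtain ⟨j, rfl⟩ : ∃ j, m = j + i := ⟨m - i, by omega⟩
      have e : j + i + (k + 1) * p = (j + k * p) + (i + p) := by ring
      rw [e, Function.iterate_add_apply, h, ← Function.iterate_add_apply]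
      rw [← ih]
      congr 1
      ring
  have h2 : i ≤ n / p := (Nat.le_div_iff_mul_le hp).2 hn
  have h3 : n = (i * p + n % p) + (n / p - i) * p := by
    have h4 := Nat.div_add_mod n p
    have h5 : (n / p - i) * p + i * p = n / p * p := by
      rw [← Nat.add_mul, Nat.sub_add_cancel h2]
    have h6 : p * (n / p) = n / p * p := Nat.mul_comm _ _
    omega
  conv_lhs => rw [h3]
  refine h1 _ ?_ _
  have : i * 1 ≤ i * p := Nat.mul_le_mul_left i hp
  omega

/-- **Finite orbits: the series converges.** -/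
theorem conv_of_finite {X : Type*} (T : X → X) (x : X)
    (hfin : (Set.range fun n : ℕ => T^[n] x).Finite) (f : X → ℂ) :
    ∃ l : ℂ, Tendsto (fun N : ℕ => ∑ n ∈ Finset.Icc 1 N,
      ((ArithmeticFunction.moebius n : ℤ) : ℂ) / (n : ℂ) * f (T^[n] x)) atTop (𝓝 l) := by
  classical
  obtain ⟨i, j, hij, hne⟩ : ∃ i j, T^[i] x = T^[j] x ∧ i ≠ j := by
    by_contra hcon
    push Not at hcon
    exact Set.infinite_range_of_injective (f := fun n : ℕ => T^[n] x)
      (fun a b hab => hcon a b hab) hfin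
  wlog hlt : i < j generalizing i j
  · exact this j i hij.symm hne.symm (by omega)
  obtain ⟨p, rfl⟩ : ∃ p, j = i + p := ⟨j - i, by omega⟩
  have hp : 0 < p := by omega
  have : NeZero p := ⟨hp.ne'⟩
  let F : ZMod p → ℂ := fun r => f (T^[i * p + r.val] x)
  obtain ⟨l, hl⟩ := Cl.periodic_sum p F
  let g : ℕ → ℂ := fun n => ((ArithmeticFunction.moebius n : ℤ) : ℂ) / (n : ℂ) *
    (f (T^[n] x) - F n)
  have hg : ∀ n, i * p ≤ n → g n = 0 := by
    intro n hn
    have h1 := eventually_periodic T x i p hij.symm n hn hp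
    simp only [g, F, ZMod.val_natCast]
    rw [h1, sub_self, mul_zero]
  refine ⟨l + ∑ n ∈ Finset.Ioc 0 (i * p), g n, ?_⟩
  have h2 : Tendsto (fun N : ℕ => ∑ n ∈ Finset.Ioc 0 N, g n) atTop
      (𝓝 (∑ n ∈ Finset.Ioc 0 (i * p), g n)) := by
    refine tendsto_const_nhds.congr' ?_
    filter_upwards [eventually_ge_atTop (i * p)] with N hN
    refine Finset.sum_subset (Finset.Ioc_subset_Ioc_right hN) ?_
    intro n _ hn
    refine hg n ?_
    rw [Finset.mem_Ioc] at hn
    rcases Nat.eq_zero_or_pos n with h0 | h0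
    · rename_i hn'
      rw [Finset.mem_Ioc] at hn'
      omega
    · omega
  refine (hl.add h2).congr fun N => ?_
  rw [Icc_eq_Ioc, ← Finset.sum_add_distrib]
  refine Finset.sum_congr rfl fun n _ => ?_
  simp only [g]
  ring

/-- The size of `∑ |μ(n)| / n`. -/
theorem log_bound (N : ℕ) : Real.log N ≤
    2 * ∑ n ∈ Finset.Icc 1 N, ‖((ArithmeticFunction.moebius n : ℤ) : ℂ) / (n : ℂ)‖ := by
  classical
  have h1 : ∀ n : ℕ, ∃ p : ℕ × ℕ, 0 < n → 0 < p.1 ∧ 0 < p.2 ∧ p.1 ^ 2 * p.2 = n ∧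
      Squarefree p.2 := by
    intro n
    rcases Nat.eq_zero_or_pos n with h | h
    · exact ⟨(0, 0), fun h' => absurd h' (by omega)⟩
    · obtain ⟨a, b, ha, hb, hab, hsq⟩ := Nat.sq_mul_squarefree_of_pos h
      exact ⟨(b, a), fun _ => ⟨hb, ha, hab, hsq⟩⟩
  choose φ hφ using h1
  have hterm : ∀ n ∈ Finset.Icc 1 N, ((n : ℝ))⁻¹ = (((φ n).1 : ℝ) ^ 2)⁻¹ *
      ‖((ArithmeticFunction.moebius (φ n).2 : ℤ) : ℂ) / ((φ n).2 : ℂ)‖ := by
    intro n hn
    obtain ⟨h2, h3, h4, h5⟩ := hφ n (Finset.mem_Icc.1 hn).1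
    have h6 : ‖((ArithmeticFunction.moebius (φ n).2 : ℤ) : ℂ)‖ = 1 := by
      have h7 := ArithmeticFunction.abs_moebius_eq_one_of_squarefree h5
      rw [Complex.norm_intCast]
      exact_mod_cast h7
    rw [norm_div, h6, Complex.norm_natCast]
    have h8 : (n : ℝ) = ((φ n).1 : ℝ) ^ 2 * (φ n).2 := by exact_mod_cast h4.symm
    rw [h8, mul_inv, one_div]
  have hinj : Set.InjOn φ (Finset.Icc 1 N : Finset ℕ) := by
    intro n hn n' hn' hnn
    have h2 := (hφ n (Finset.mem_Icc.1 (Finset.mem_coe.1 hn)).1).2.2.1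
    have h3 := (hφ n' (Finset.mem_Icc.1 (Finset.mem_coe.1 hn')).1).2.2.1
    rw [← h2, ← h3, hnn]
  have hmaps : (Finset.Icc 1 N).image φ ⊆ Finset.Ioo 0 (N + 1) ×ˢ Finset.Icc 1 N := by
    intro p hp
    obtain ⟨n, hn, rfl⟩ := Finset.mem_image.1 hp
    obtain ⟨h2, h3, h4, h5⟩ := hφ n (Finset.mem_Icc.1 hn).1
    have hnN := (Finset.mem_Icc.1 hn).2
    have h6 : (φ n).1 ≤ (φ n).1 ^ 2 * (φ n).2 := by
      calc (φ n).1 = (φ n).1 * 1 * 1 := by ring
        _ ≤ (φ n).1 * (φ n).1 * (φ n).2 :=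
          Nat.mul_le_mul (Nat.mul_le_mul_left _ h2) h3
        _ = _ := by ring
    have h7 : (φ n).2 ≤ (φ n).1 ^ 2 * (φ n).2 :=
      Nat.le_mul_of_pos_left _ (by positivity)
    rw [Finset.mem_product, Finset.mem_Ioo, Finset.mem_Icc]
    exact ⟨⟨h2, by omega⟩, h3, by omega⟩
  have h2 : ∑ n ∈ Finset.Icc 1 N, ((n : ℝ))⁻¹ ≤
      ∑ p ∈ Finset.Ioo 0 (N + 1) ×ˢ Finset.Icc 1 N, ((p.1 : ℝ) ^ 2)⁻¹ *
        ‖((ArithmeticFunction.moebius p.2 : ℤ) : ℂ) / (p.2 : ℂ)‖ := by
    rw [Finset.sum_congr rfl hterm,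
      ← Finset.sum_image (f := fun p : ℕ × ℕ => ((p.1 : ℝ) ^ 2)⁻¹ *
        ‖((ArithmeticFunction.moebius p.2 : ℤ) : ℂ) / (p.2 : ℂ)‖) hinj]
    exact Finset.sum_le_sum_of_subset_of_nonneg hmaps fun p _ _ => by positivity
  have h2' : ∑ p ∈ Finset.Ioo 0 (N + 1) ×ˢ Finset.Icc 1 N, ((p.1 : ℝ) ^ 2)⁻¹ *
        ‖((ArithmeticFunction.moebius p.2 : ℤ) : ℂ) / (p.2 : ℂ)‖ =
      (∑ i ∈ Finset.Ioo 0 (N + 1), ((i : ℝ) ^ 2)⁻¹) *
        ∑ m ∈ Finset.Icc 1 N, ‖((ArithmeticFunction.moebius m : ℤ) : ℂ) / (m : ℂ)‖ := by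
    rw [Finset.sum_mul_sum, Finset.sum_product]
  rw [h2'] at h2
  have h3 : ∑ i ∈ Finset.Ioo 0 (N + 1), ((i : ℝ) ^ 2)⁻¹ ≤ 2 := by
    have := sum_Ioo_inv_sq_le (α := ℝ) 0 (N + 1)
    simpa using this
  have h4 : Real.log N ≤ ∑ n ∈ Finset.Icc 1 N, ((n : ℝ))⁻¹ := by
    have h5 := log_le_harmonic_floor (N : ℝ) (Nat.cast_nonneg N)
    rw [Nat.floor_natCast, harmonic_eq_sum_Icc] at h5
    push_cast at h5
    exact h5
  refine h4.trans (h2.trans ?_)
  exact mul_le_mul_of_nonneg_right h3 (Finset.sum_nonneg fun _ _ => norm_nonneg _)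

/-- `log N` is `O(∑ |μ(n)| / n)`. -/
theorem log_isBigO : (fun N : ℕ => Real.log N) =O[atTop]
    fun N : ℕ => ∑ n ∈ Finset.Icc 1 N, ‖((ArithmeticFunction.moebius n : ℤ) : ℂ) / (n : ℂ)‖ := by
  refine Asymptotics.IsBigO.of_bound 2 ?_
  filter_upwards [eventually_ge_atTop 1] with N hN
  have h1 : 0 ≤ Real.log N := Real.log_nonneg (by exact_mod_cast hN)
  rw [Real.norm_of_nonneg h1, Real.norm_of_nonneg (Finset.sum_nonneg fun _ _ => norm_nonneg _)]
  exact log_bound N

/-- Partial summation. -/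
lemma partial_sum (a : ℕ → ℂ) (N : ℕ) :
    ∑ n ∈ Finset.Icc 1 N, a n / n = (∑ n ∈ Finset.Icc 1 N, a n) / (N + 1) +
      ∑ n ∈ Finset.Icc 1 N, (∑ k ∈ Finset.Icc 1 n, a k) / (n * (n + 1)) := by
  induction N with
  | zero => simp
  | succ N ih =>
    rw [Finset.sum_Icc_succ_top (by omega), ih, Finset.sum_Icc_succ_top (by omega : 1 ≤ N + 1),
      Finset.sum_Icc_succ_top (by omega : 1 ≤ N + 1),
      Finset.sum_Icc_succ_top (by omega : 1 ≤ N + 1)]
    have h1 : (N : ℂ) + 1 ≠ 0 := by exact_mod_cast Nat.succ_ne_zero N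
    have h2 : (N : ℂ) + 1 + 1 ≠ 0 := by exact_mod_cast Nat.succ_ne_zero (N + 1)
    push_cast
    field_simp
    ring

/-- **Means tending to zero give `o(log N)`.** -/
theorem little_of_mean (a : ℕ → ℂ)
    (h : Tendsto (fun N : ℕ => (∑ n ∈ Finset.Icc 1 N, a n) / (N : ℂ)) atTop (𝓝 0)) :
    (fun N : ℕ => ∑ n ∈ Finset.Icc 1 N, a n / n) =o[atTop] fun N : ℕ => Real.log N := by
  set M : ℕ → ℂ := fun N => ∑ n ∈ Finset.Icc 1 N, a n with hM
  have hlog : Tendsto (fun N : ℕ => Real.log N) atTop atTop :=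
    Real.tendsto_log_atTop.comp tendsto_natCast_atTop_atTop
  have h1 : (fun N : ℕ => ∑ n ∈ Finset.Icc 1 N, a n / n) = fun N : ℕ => M N / (N + 1) +
      ∑ i ∈ Finset.range N, M (i + 1) / ((i + 1 : ℕ) * ((i + 1 : ℕ) + 1)) := by
    funext N
    rw [partial_sum]
    congr 1
    rw [Finset.range_eq_Ico, Finset.sum_Ico_add' (fun n : ℕ => M n / (n * (n + 1))) 0 N 1]
    refine Finset.sum_congr ?_ fun n _ => rfl
    ext n
    simp only [Finset.mem_Icc, Finset.mem_Ico]
    omega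
  rw [h1]
  refine Asymptotics.IsLittleO.add ?_ ?_
  · -- the boundary term
    have h2 : Tendsto (fun N : ℕ => M N / ((N : ℂ) + 1)) atTop (𝓝 0) := by
      rw [tendsto_zero_iff_norm_tendsto_zero] at h ⊢
      refine squeeze_zero' (Eventually.of_forall fun N => norm_nonneg _) ?_ h
      filter_upwards [eventually_ge_atTop 1] with N hN
      have hNR : (0 : ℝ) < N := by exact_mod_cast hN
      rw [norm_div, norm_div, Complex.norm_natCast]
      have h3 : ‖(N : ℂ) + 1‖ = N + 1 := by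
        have := Complex.norm_natCast (N + 1)
        push_cast at this
        exact this
      rw [h3]
      exact div_le_div_of_nonneg_left (norm_nonneg _) hNR (by linarith)
    refine (Asymptotics.isLittleO_one_iff ℝ).2 h2 |>.trans_isBigO ?_
    refine Asymptotics.IsBigO.of_bound 1 ?_
    filter_upwards [hlog.eventually_ge_atTop 1] with N hN
    rw [norm_one, one_mul, Real.norm_of_nonneg (by linarith)]
    exact hN
  · have h2 : (fun i : ℕ => M (i + 1) / ((i + 1 : ℕ) * ((i + 1 : ℕ) + 1) : ℂ)) =o[atTop]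
        fun i : ℕ => ((i : ℝ) + 1)⁻¹ := by
      have h3 : Tendsto (fun i : ℕ => M (i + 1) / ((i + 1 : ℕ) : ℂ)) atTop (𝓝 0) :=
        h.comp (tendsto_add_atTop_nat 1)
      rw [Asymptotics.isLittleO_iff]
      intro c hc
      filter_upwards [(tendsto_zero_iff_norm_tendsto_zero.1 h3).eventually (ge_mem_nhds hc)]
        with i hi
      have hiR : (0 : ℝ) < (i : ℝ) + 1 := by positivity
      have h4 : ‖((i + 1 : ℕ) : ℂ) + 1‖ = (i : ℝ) + 1 + 1 := by
        have := Complex.norm_natCast (i + 1 + 1)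
        push_cast at this ⊢
        exact this
      rw [← div_div, norm_div, h4, Real.norm_of_nonneg (by positivity), div_eq_mul_inv]
      refine mul_le_mul hi ?_ (by positivity) hc.le
      exact inv_anti₀ hiR (by linarith)
    have h5 : Tendsto (fun N : ℕ => ∑ i ∈ Finset.range N, ((i : ℝ) + 1)⁻¹) atTop atTop := by
      refine tendsto_atTop_mono (fun N => ?_)
        (hlog.comp (tendsto_add_atTop_nat 1))
      have := log_add_one_le_harmonic N
      unfold harmonic at this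
      push_cast at this
      simpa using this
    refine (h2.sum_range (fun i => by positivity) h5).trans_isBigO ?_
    refine Asymptotics.IsBigO.of_bound 2 ?_
    filter_upwards [hlog.eventually_ge_atTop 1] with N hN
    have h6 := harmonic_le_one_add_log N
    unfold harmonic at h6
    push_cast at h6
    rw [Real.norm_of_nonneg (Finset.sum_nonneg fun i _ => by positivity),
      Real.norm_of_nonneg (by linarith)]
    linarith

end Pool.Agent.Lib.MP_aae597_nt.Orb
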