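import Pool.Agent.Lib.MP_aae597_nt.Generic

/-!
# Generic oscillation of weighted sums along an infinite orbit
-/

set_option autoImplicit false
set_option linter.unusedSectionVars false

open Filter Topology Set Finset

namespace Pool.Agent.Lib.MP_aae597_nt.Osc

open Pool.Agent.Lib.MP_aae597_nt.Generic

variable {X : Type*} [MetricSpace X] [CompactSpace X]

/-- If the sums of every `f` are small compared with the total weight, then for generic `f` every
complex number is a cluster point of the sums. -/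
theorem osc (a : ℕ → ℂ) (x : ℕ → X) (hx : Function.Injective x)
    (hA : Tendsto (fun N => ∑ n ∈ Finset.Icc 1 N, ‖a n‖) atTop atTop)
    (hS : ∀ f : C(X, ℂ), (fun N => S a x f N) =o[atTop] fun N => ∑ n ∈ Finset.Icc 1 N, ‖a n‖) :
    ∀ᶠ f in residual C(X, ℂ), ∀ z : ℂ, MapClusterPt z atTop (fun N => S a x f N) := by
  have h1 : ∀ᶠ f in residual C(X, ℂ), ∀ p : ℕ × ℕ × ℕ, ∃ N, p.2.2 ≤ N ∧
      ‖S a x f N - TopologicalSpace.denseSeq ℂ p.1‖ < 1 / ((p.2.1 : ℝ) + 1) := by
    rw [eventually_countable_forall]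
    intro p
    refine residual_of_dense_open ?_ ?_
    · have : {f : C(X, ℂ) | ∃ N, p.2.2 ≤ N ∧
          ‖S a x f N - TopologicalSpace.denseSeq ℂ p.1‖ < 1 / ((p.2.1 : ℝ) + 1)} =
          ⋃ N : ℕ, ⋃ _ : p.2.2 ≤ N, {f : C(X, ℂ) |
            ‖S a x f N - TopologicalSpace.denseSeq ℂ p.1‖ < 1 / ((p.2.1 : ℝ) + 1)} := by
        ext f
        simp
      rw [this]
      refine isOpen_iUnion fun N => isOpen_iUnion fun _ => ?_
      exact isOpen_lt ((continuous_S a x N).sub continuous_const).norm continuous_const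
    · rw [Metric.dense_iff]
      intro f r hr
      set z := TopologicalSpace.denseSeq ℂ p.1
      have hev := (Asymptotics.isLittleO_iff.1 (hS f)) (show (0 : ℝ) < r / 4 by positivity)
      obtain ⟨N, ⟨⟨hN1, hN2⟩, hN3⟩, hN0⟩ := (((hev.and
        (hA.eventually_ge_atTop (4 * ‖z‖ / r))).and (hA.eventually_gt_atTop 0)).and
        (eventually_ge_atTop p.2.2)).exists
      obtain ⟨g, hg, hgS⟩ := exists_test a x hx N
      set A := ∑ n ∈ Finset.Icc 1 N, ‖a n‖ with hAdef
      have hAC : (A : ℂ) ≠ 0 := by exact_mod_cast hN3.ne'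
      refine ⟨f + ((z - S a x f N) / A) • g, ?_, N, hN0, ?_⟩
      · rw [Metric.mem_ball, dist_eq_norm, add_sub_cancel_left, norm_smul, norm_div,
          Complex.norm_real, Real.norm_of_nonneg hN3.le]
        rw [Real.norm_of_nonneg hN3.le] at hN1
        rw [div_le_iff₀ hr] at hN2
        have h2 : ‖z - S a x f N‖ ≤ r / 4 * A + r / 4 * A := by
          refine (norm_sub_le _ _).trans (add_le_add ?_ hN1)
          linarith
        have h3 : ‖z - S a x f N‖ / A ≤ r / 2 := by
          rw [div_le_iff₀ hN3]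
          linarith
        calc ‖z - S a x f N‖ / A * ‖g‖ ≤ r / 2 * 1 :=
              mul_le_mul h3 hg (norm_nonneg _) (by positivity)
          _ < r := by linarith
      · rw [S_add, S_smul, hgS, div_mul_cancel₀ _ hAC, add_sub_cancel, sub_self, norm_zero]
        positivity
  filter_upwards [h1] with f hf z
  rw [mapClusterPt_iff_frequently]
  intro s hs
  obtain ⟨ε, hε, hball⟩ := Metric.mem_nhds_iff.1 hs
  obtain ⟨j, hj⟩ := exists_nat_one_div_lt (show (0 : ℝ) < ε / 2 by positivity)
  obtain ⟨k, hk⟩ := (TopologicalSpace.denseRange_denseSeq ℂ).exists_dist_lt z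
    (show (0 : ℝ) < ε / 2 by positivity)
  rw [frequently_atTop]
  intro N₀
  obtain ⟨N, hN, hlt⟩ := hf (k, j, N₀)
  refine ⟨N, hN, hball ?_⟩
  rw [Metric.mem_ball]
  have h2 : dist (S a x f N) (TopologicalSpace.denseSeq ℂ k) < 1 / ((j : ℝ) + 1) := by
    rw [dist_eq_norm]
    exact hlt
  have h3 := dist_triangle (S a x f N) (TopologicalSpace.denseSeq ℂ k) z
  rw [dist_comm] at hk
  linarith

end Pool.Agent.Lib.MP_aae597_nt.Osc
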