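import Mathlib

set_option autoImplicit false

namespace Pool.Agent.Lib.MP_aae597_nt

open Filter Finset

/-- Some residue class mod `m` carries a divergent part of the sum of reciprocals of primes. -/
theorem exists_residue (m : ℕ) (hm : 0 < m) :
    ∃ r : ℕ, ¬ Summable (Set.indicator {p : ℕ | p.Prime ∧ p % m = r} (fun n : ℕ => (1:ℝ)/n)) := by
  by_contra h
  push Not at h
  apply not_summable_one_div_on_primes
  have key : Set.indicator {p : ℕ | p.Prime} (fun n : ℕ => (1:ℝ)/n)
      = fun n => ∑ r ∈ range m,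
          Set.indicator {p : ℕ | p.Prime ∧ p % m = r} (fun n : ℕ => (1:ℝ)/n) n := by
    funext n
    by_cases hn : n.Prime
    · have hlt : n % m ∈ range m := by simpa using Nat.mod_lt n hm
      rw [Finset.sum_eq_single_of_mem (n % m) hlt]
      · simp [Set.indicator, hn]
      · intro r _ hr
        simp [Set.indicator, hn, Ne.symm hr]
    · simp [Set.indicator, hn]
  rw [key]
  exact summable_sum (fun r _ => h r)

/-- A divergent series with nonnegative terms has blocks with sum at least one. -/
theorem exists_block (f : ℕ → ℝ) (hf : ∀ n, 0 ≤ f n) (hs : ¬ Summable f) (B : ℕ) :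
    ∃ B' : ℕ, B < B' ∧ 1 ≤ ∑ n ∈ Ioc B B', f n := by
  have ht := (not_summable_iff_tendsto_nat_atTop_of_nonneg hf).1 hs
  have h1 := ht.eventually (eventually_ge_atTop (1 + ∑ i ∈ range (B+1), f i))
  obtain ⟨N, hN⟩ := (h1.and (eventually_ge_atTop (B+2))).exists
  refine ⟨N - 1, by omega, ?_⟩
  have hsplit : ∑ i ∈ range N, f i = ∑ i ∈ range (B+1), f i + ∑ n ∈ Ioc B (N-1), f n := by
    have : Ioc B (N-1) = Ico (B+1) N := by
      ext x; simp only [mem_Ioc, mem_Ico]; omega
    rw [this, Finset.sum_range_add_sum_Ico _ (by omega)]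
  linarith [hN.1]

theorem exists_sparse_primes : ∃ E : Set ℕ, (∀ p ∈ E, p.Prime) ∧
    (∀ L : ℕ, ∃ M : ℕ, ∀ p ∈ E, ∀ q ∈ E, M ≤ p → p < q → p + L ≤ q) ∧
    Tendsto (fun N : ℕ => ∑ n ∈ Finset.Icc 1 N, Set.indicator E (fun n : ℕ => (1:ℝ)/n) n)
      atTop atTop := by
  classical
  choose r hr using fun j : ℕ => exists_residue (j+1) (Nat.succ_pos j)
  have hnn : ∀ (s : Set ℕ) (n : ℕ), 0 ≤ Set.indicator s (fun n : ℕ => (1:ℝ)/n) n := by
    intro s n
    exact Set.indicator_nonneg (fun _ _ => by positivity) n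
  choose g hg1 hg2 using fun (j b : ℕ) =>
    exists_block _ (hnn {p : ℕ | p.Prime ∧ p % (j+1) = r j}) (hr j) (b + j)
  -- thresholds
  let B : ℕ → ℕ := fun n => Nat.rec 0 (fun j b => g j b) n
  have hB0 : B 0 = 0 := rfl
  have hBs : ∀ j, B (j+1) = g j (B j) := fun j => rfl
  have hBlt : ∀ j, B j + j < B (j+1) := by
    intro j; rw [hBs]; exact hg1 j (B j)
  have hBmono : StrictMono B := strictMono_nat_of_lt_succ (fun j => by have := hBlt j; omega)
  let E : Set ℕ := {p | p.Prime ∧ ∃ j, B j + j < p ∧ p ≤ B (j+1) ∧ p % (j+1) = r j}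
  have hE : ∀ p, p ∈ E ↔ p.Prime ∧ ∃ j, B j + j < p ∧ p ≤ B (j+1) ∧ p % (j+1) = r j :=
    fun p => Iff.rfl
  refine ⟨E, fun p hp => hp.1, ?_, ?_⟩
  · intro L
    refine ⟨B L + 1, ?_⟩
    rintro p ⟨_, j, hj1, hj2, hj3⟩ q ⟨_, j', hj1', hj2', hj3'⟩ hMp hpq
    have hLj : L ≤ j := by
      by_contra hlt
      have : B (j+1) ≤ B L := hBmono.monotone (show j + 1 ≤ L by omega)
      omega
    have hjj : j ≤ j' := by
      by_contra hlt
      have : B (j'+1) ≤ B j := hBmono.monotone (show j' + 1 ≤ j by omega)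
      omega
    rcases Nat.eq_or_lt_of_le hjj with h | h
    · subst h
      have hmod : p ≡ q [MOD (j+1)] := by
        unfold Nat.ModEq; rw [hj3, hj3']
      have hdvd : (j+1) ∣ q - p := (Nat.modEq_iff_dvd' hpq.le).1 hmod
      have := Nat.le_of_dvd (by omega) hdvd
      omega
    · have : B (j+1) ≤ B j' := hBmono.monotone h
      omega
  · -- divergence
    have hlow : ∀ J : ℕ, (J : ℝ) ≤ ∑ n ∈ Finset.Icc 1 (B J),
        Set.indicator E (fun n : ℕ => (1:ℝ)/n) n := by
      intro J
      induction J with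
      | zero => simp [hB0]
      | succ J ih =>
        have hsub : Finset.Icc 1 (B J) ∪ Ioc (B J + J) (B (J+1)) ⊆ Finset.Icc 1 (B (J+1)) := by
          intro x hx
          have := hBlt J
          simp only [mem_union, mem_Icc, mem_Ioc] at hx ⊢
          omega
        have hdisj : Disjoint (Finset.Icc 1 (B J)) (Ioc (B J + J) (B (J+1))) := by
          rw [Finset.disjoint_left]
          intro x hx hx'
          simp only [mem_Icc, mem_Ioc] at hx hx'
          omega
        calc ((J+1 : ℕ) : ℝ) = J + 1 := by push_cast; ring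
          _ ≤ ∑ n ∈ Finset.Icc 1 (B J), Set.indicator E (fun n : ℕ => (1:ℝ)/n) n
              + ∑ n ∈ Ioc (B J + J) (B (J+1)), Set.indicator E (fun n : ℕ => (1:ℝ)/n) n := by
                apply add_le_add ih
                refine (hg2 J (B J)).trans ?_
                rw [← hBs]
                apply Finset.sum_le_sum
                intro n hn
                simp only [mem_Ioc] at hn
                by_cases hmem : n.Prime ∧ n % (J+1) = r J
                · have : n ∈ E := ⟨hmem.1, J, hn.1, hn.2, hmem.2⟩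
                  simp [Set.indicator, this, hmem]
                · have h0 : Set.indicator {p : ℕ | p.Prime ∧ p % (J+1) = r J}
                      (fun n : ℕ => (1:ℝ)/n) n = 0 := by
                    apply Set.indicator_of_notMem
                    exact hmem
                  rw [h0]; exact hnn _ _
          _ = ∑ n ∈ Finset.Icc 1 (B J) ∪ Ioc (B J + J) (B (J+1)),
                Set.indicator E (fun n : ℕ => (1:ℝ)/n) n := (Finset.sum_union hdisj).symm
          _ ≤ _ := Finset.sum_le_sum_of_subset_of_nonneg hsub (fun _ _ _ => hnn _ _)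
    have hmono : Monotone (fun N : ℕ => ∑ n ∈ Finset.Icc 1 N,
        Set.indicator E (fun n : ℕ => (1:ℝ)/n) n) := by
      intro N N' h
      exact Finset.sum_le_sum_of_subset_of_nonneg (Finset.Icc_subset_Icc_right h)
        (fun _ _ _ => hnn _ _)
    apply tendsto_atTop_atTop_of_monotone hmono
    intro b
    obtain ⟨J, hJ⟩ := exists_nat_ge b
    exact ⟨B J, hJ.trans (hlow J)⟩

end Pool.Agent.Lib.MP_aae597_nt
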